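import Pool.Agent.W622.ETG.Basic

set_option autoImplicit false

/-!
Statements of the steps, for general `e` (`= -1`).  Each `S_XX` is a proposition; a part proves
`theorem t_XX (h1 : S_A) (h2 : S_B) … : S_XX`.
The case `e = 0` is `Pool.Agent.W622.ETC.Stm`, proved in the files `Pool.Agent.W*.ELT.*`; most proofs
are adaptations of those.
Notation in the comments: `V` finite over `F_2`, `n = dim V`, `A[X] = res A X`, `A_b = res A (ann b)`
(= members of `A` killing `b`), `i_a A = {ω a : ω ∈ A}` (contained in `ann (a + e)`).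
Everything is in characteristic two (`vadd : v + v = 0`).
-/

namespace Pool.Agent.W622.ETG

open Module

/-! ### first consequences of linkage -/

/-- LU. As for `e = 0`. -/
def S_LU : Prop := ∀ (V : Type) [AddCommGroup V] [Module (ZMod 2) V] [Finite V] (e : V) (A : Fam V),
  EFam e A → Hered A → LU e A

/-- PL (primal linkage). As for `e = 0`. -/
def S_PL : Prop := ∀ (V : Type) [AddCommGroup V] [Module (ZMod 2) V] [Finite V] (e : V) (A : Fam V),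
  EFam e A → Linked A → ∀ a c u v : V, (∀ ω ∈ A, ω a u = ω c v) →
    ∃ z : V, (∀ ω ∈ A, ω a (u + z) = 0) ∧ (∀ ω ∈ A, ω c (v + z) = 0) ∧ (∀ ω ∈ A, ω (a + c) z = 0)

/-- RIG1 (relative birigid element).  `W = {w | ∀ f ∈ X, f w = 0}`; all `ω ∈ A` kill `W`;
`B(a,y)` = the vector of all `ω a y`; `K_a = {y : B(a,y) = 0}` (so `K_a^0 = i_a A`), `B(a,a) = B(a,e)`.
`R(a)` means `K_a ≤ W + ⟨a+e⟩`; `a` is birigid if `R(a)` and `R(a+e)`.  The hypotheses say `x ∉ W+⟨e⟩`, `x` birigid.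
Claim 1: `x` birigid, `x ∉ W+⟨e⟩`, `a ∉ W + ⟨x,e⟩` ⇒ `R(a+e)` or `R(a+x+e)`.  Put `α = a+e` and suppose
`y ∈ K_α ∖ (W+⟨α+e⟩)`, `u ∈ K_{α+x} ∖ (W+⟨α+x+e⟩)`.  `B(y+u,α) = B(u,α) = B(x,u)`; PL for `(y+u,α),(x,u)` gives `z`
with `B(x,u+z)=0`, so `z ∈ u+W` or `z ∈ u+x+e+W`; using `B(y+u+x,z)=0` in the first case and `B(y+u,α+z)=0` in the
second: (1) `B(y,u) = B(u,x+e)` or `B(y,u) = B(y,x+e)`.  The same for `y+α+e`: (2) `B(y,u) = 0` or
`B(y,u) = B(u+y+α+e, x+e)`.  Combinations: first/first: `u ∈ K_{x+e} ≤ W+⟨x⟩`, so `u = x` mod `W`,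
`B(α+x,x)=0` gives `B(x,α+e)=0`, `a ∈ K_x`; second/first: `y ∈ W+⟨x⟩`, `y = x`, `B(α,x)=0`, `α ∈ K_x`; first/second:
`B(y+α+e,x+e)=0`, `y = x+α+e` mod `W`, then `B(α,x)=0`; second/second: `B(u+α+e,x+e)=0`, `u = α+e` mod `W`,
`B(α+x,α+e)=0` gives `B(x,α+e)=0`.  All contradict `a ∉ W+⟨x,e⟩`, `K_x ≤ W+⟨x+e⟩`.
Claim 1 for `(x,a), (x+e,a), (x,a+e), (x+e,a+e)` gives: `a` or `a+x` is birigid.  Birigidity is
invariant under `W+⟨e⟩`.  Hence `T = (W+⟨e⟩) ∪ {not birigid}` is a subgroup, `x ∉ T`; choose `q` with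
`q x = 1`, `q = 0` on `T`, so `q ∈ X`, `q e = 0`.  `ζ = wd e q g` (`g ∈ X`).  If `a` is birigid and `∉ W+⟨e⟩`,
`i_a A = {f ∈ X : f(a+e) = 0} ∋ ζ a`.  If `a ∈ T`, `ζ a = g(a) q`; if `g a = 1` and `y ∈ K_a` has `q y = 1`, `y ∉ T` is
birigid and `a ∈ K_y ≤ W+⟨y+e⟩`: `a ∈ W` (then `g a = 0`) or `q a = q y = 1`, contradiction; so
`q ∈ K_a^0 = i_a A`.  `LU` gives `ζ ∈ A`. -/
def S_RIG1 : Prop := ∀ (V : Type) [AddCommGroup V] [Module (ZMod 2) V] [Finite V] (e : V)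
  (A : Fam V) (X : DSub V) (x : V), EFam e A → Linked A → LU e A → supp A ≤ X →
  (∃ f ∈ X, f x = 1 ∧ f e = 0) → (∀ f ∈ X, f (x + e) = 0 → ∃ ω ∈ A, ω x = f) →
  (∀ f ∈ X, f x = 0 → ∃ ω ∈ A, ω (x + e) = f) →
  ∃ q ∈ X, q x = 1 ∧ q e = 0 ∧ ∀ g ∈ X, wd e q g ∈ A

/-- RIG. Proof: RIG1 with `X = ⊤` gives `q`; `A = A_x ⊔ map (wd e q) (ann x)`: for `ω ∈ A`, `f = ω x` has
`f x = f e` (EF.self_e); `g = f + f(x) q ∈ ann x` and `wd e q g x = f`, so `ω + wd e q g` kills `x`;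
constructor `cone` with `Y = ann x` (`q ∉ ann x`). -/
def S_RIG : Prop := ∀ (V : Type) [AddCommGroup V] [Module (ZMod 2) V] [Finite V] (e : V)
  (A : Fam V) (x : V), EFam e A → Hered A → x ≠ 0 → x ≠ e →
  (∀ f : Dl V, f (x + e) = 0 → ∃ ω ∈ A, ω x = f) → (∀ f : Dl V, f x = 0 → ∃ ω ∈ A, ω (x + e) = f) →
  El e (res A (ann x)) → El e A

/-! ### normal form of families of elementary type -/

/-- NF. Induction on `El` as for `e = 0`.  `cone A p Y` with `dim Y = 1`, `Y = ⟨y⟩`: either `A = ⊥`: local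
component `⟨p,y⟩` (form `wd e p y`), or (EF.eq_sqf) `A = {0, sqf y}`, `y e = 1`: then
`wd e p y = sqf y + sqf (p+y)` and the components are `⟨y⟩`, `⟨p+y⟩`. -/
def S_NF : Prop := ∀ (V : Type) [AddCommGroup V] [Module (ZMod 2) V] [Finite V] (e : V) (A : Fam V),
  El e A → EFam e A ∧ ∃ s : Set (DSub V), Comps e A s

/-- SPLIT. As for `e = 0`. -/
def S_SPLIT : Prop := ∀ (V : Type) [AddCommGroup V] [Module (ZMod 2) V] [Finite V] (e : V)
  (A : Fam V) (s t : Set (DSub V)), EFam e A → Comps e A s → t ⊆ s →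
  A = res A (sSup t) ⊔ res A (sSup (s \ t)) ∧ Disjoint (sSup t) (sSup (s \ t)) ∧
    Comps e (res A (sSup t)) t

/-- ES1. `p ∈ Z`, `wd e p g ∈ A` for `g ∈ Z`, and `dim Z ≥ 3`, or `dim Z = 2` and `Z ≤ ann e`.
Proof.  For `g ∈ Z ∖ ⟨p⟩` with `g e = 0`: `wd e p g = ∑ ω_X` kills `e`, so (independence) all `ω_X` kill `e`, are
alternating (EF.alt) and have even rank (old S_EVEN); total rank 2, so one component:
`⟨p,g⟩ ≤ X`.  Such `g` exists (`dim (Z ⊓ ann e) ≥ 2`), call this component `X₀`; `p ∈ X₀`.  For `g ∈ Z` with `g e = 1`: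
`wd e p g = ∑ ω_X` of total rank 2: one component, which is `X₀` as it contains `p`; or two of
rank one, which are (EF.eq_sqf) squares of two elements of `⟨p,g⟩` with value 1 at `e`, i.e. `g` and `p+g`, in
different components `X₁, X₂`; then `p = g + (p+g)` contradicts `p ∈ X₀` and independence. -/
def S_ES1 : Prop := ∀ (V : Type) [AddCommGroup V] [Module (ZMod 2) V] [Finite V] (e : V)
  (A : Fam V) (s : Set (DSub V)) (Z : DSub V) (p : Dl V), EFam e A → Comps e A s → p ≠ 0 →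
  p ∈ Z → p e = 0 → (3 ≤ finrank (ZMod 2) Z ∨ (2 ≤ finrank (ZMod 2) Z ∧ Z ≤ ann e)) →
  (∀ g ∈ Z, wd e p g ∈ A) → ∃ X ∈ s, Z ≤ X

/-- ES2. As for `e = 0`. -/
def S_ES2 : Prop := ∀ (V : Type) [AddCommGroup V] [Module (ZMod 2) V] [Finite V] (e : V)
  (A : Fam V) (s : Set (DSub V)) (ω : Frm V), EFam e A → Comps e A s → Prim A ω →
  ∃ X ∈ s, sp ω ≤ X

/-- FULL. As for `e = 0`; for a cone with apex `p` and `f ∉ ⟨p⟩` choose `a` with `p a = 1`, `f a = f e`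
(`wd_val_one`). -/
def S_FULL : Prop := ∀ (V : Type) [AddCommGroup V] [Module (ZMod 2) V] [Finite V] (e : V)
  (A : Fam V) (s : Set (DSub V)) (f : Dl V), EFam e A → Comps e A s → f ∈ sSup s →
  ∃ ω ∈ A, ∃ a : V, ω a = f

/-- BFULL. Fullness of one block (as for `e = 0`). -/
def S_BFULL : Prop := ∀ (V : Type) [AddCommGroup V] [Module (ZMod 2) V] [Finite V] (e : V)
  (A : Fam V) (X : DSub V) (f : Dl V), Block e A X → f ∈ X → ∃ ω ∈ res A X, ∃ a : V, ω a = f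

/-- CFULL. Fullness of a cone (same argument). -/
def S_CFULL : Prop := ∀ (V : Type) [AddCommGroup V] [Module (ZMod 2) V] [Finite V] (e : V)
  (A : Fam V) (X : DSub V) (p f : Dl V), Cone e A X p → f ∈ X →
  ∃ g ∈ X, ∃ a : V, wd e p g a = f

/-! ### blocks -/

/-- ST0. In a minimal configuration `ann b` is not a cone-like family with apex `p`.
Proof.  For `x` with `p x = 1`: `{f : f b = 0, f(x+e) = 0} ⊆ i_x A` (`wd_val_one`), so `K_x ≤ ⟨b, x+e⟩`, and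
`K_x = ⟨x+e⟩` unless `b ∈ K_x` i.e. `x ∈ K_b`.  So if `p x = 1`, `x ∉ K_b`, `x+e ∉ K_b`, RIG applies to `x` (MC.el for
`ann x`; `x ≠ 0, e` as `p x = 1`, `p e = 0`), contradiction.  `K_b ≠ V` (`supp A = ⊤`).  If no such `x` exists: if
`e ∈ K_b`, `K_b ⊇ {p = 1}` which spans `V`; so `e ∉ K_b`, `K_b + ⟨e⟩ = V`, `K_b` has index 2, `i_b A = {0, f₀}`,
`f₀ e = 1`, and `f₀ b = f₀ e = 1`.  Choose `x'` with `p x' = f₀ x' = 1` (`p ≠ f₀` as `p b = 0`).  `x' ∉ K_b`, so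
`i_{x'} A = ann (x'+e) ∋ f₀`; link `ω_b b = f₀ = ω' x'`: `ω ∈ A`, `ω b = ω x' = f₀`, so `ω` kills `c = b + x' ≠ 0`.
Every `η ∈ A_c` has `η b ∈ {0,f₀}`, so `A_c = A[Y] + {0,ω}`, `Y = ann b ⊓ ann x'`.  Normal form `s` of `A_c`
(MC.el, NF).  `ω = ∑ ω_Z`, `ω_Z b ∈ Z ⊓ {0,f₀}`: exactly one `Z₁` has `ω₁ := ω_{Z₁}`, `ω₁ b = f₀`, and `ω₁ x' = f₀`;
`f₀ ∈ Z₁`, no other component contains `f₀`.
`Z₁` is not a cone: with apex `p₁`, the values `wd e p₁ g b ∈ {0,f₀}`; if `p₁ b = 1` then `g ∈ ⟨p₁,f₀⟩` for all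
`g ∈ Z₁`; if `p₁ b = 0`, `g(b) p₁ = 0` (as `f₀ e = 1 ≠ p₁ e`), but `f₀ b = 1`.  So `A[Z₁] = {0,ω₁}`, `sp ω₁ = Z₁`.
If `dim Z₁ ≥ 2`: take `0 ≠ g ∈ Z₁`, `g b = 0`; `g = ω₁ a` with `p a = 0` (change `a` by `c`: `ω₁ c = 0`, `p c = 1`);
`p ∉ Z₁` (`Z₁ ≤ ann c`), so `p, f₀, g` are independent: choose `x` with `p x = f₀ x = 1`, `g x = g e`.
`wd e p g x = g`.  Link `ω₁ a = g = (wd e p g) x`: `ζ a = ζ x = g`.  Subtract `ε ω₁` to get a member `η` killing `b`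
(`ζ b ∈ {0,f₀}`); `h := η x'` has `h b = 0`, `h(x'+e) = 0`, `wd e p h x' = h`; so `ζ = α + wd e p h + ε ω₁`, `α` kills
`b` and `x'`, `α ∈ A_c`, its `Z₁`-part is `0` (value at `b`).  At `a`: `α a + h(a) p + ε g = g`; apply to `c`: `h a = 0`;
then `α a = (1+ε) g ∈ Z₁ ⊓ sSup (s ∖ Z₁) = 0`: `ε = 1`.  At `x`, evaluated at `b`: `α x b = 0`, `wd e p h x b = 0`,
`ω₁ x b = f₀ x = 1`, `g b = 0`: `1 = 0`.
So `Z₁ = ⟨f₀⟩`, `ω₁ = sqf f₀` (EF.eq_sqf), `A = A_b ⊔ span {sqf f₀}` (`sqf f₀ b = f₀`), disjoint supports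
(`supp A_b ≤ ann b`, `f₀ b = 1`): `El`, contradiction. -/
def S_ST0 : Prop := ∀ (V : Type) [AddCommGroup V] [Module (ZMod 2) V] [Finite V] (e : V)
  (A : Fam V) (b : V) (p : Dl V), MC e A → b ≠ 0 → p ≠ 0 → p b = 0 → p e = 0 →
  (∀ g : Dl V, g b = 0 → wd e p g ∈ A) → False

/-- A1. Cones have codimension ≥ 2.  `M = ⊤`: any `x` with `p x = 1` satisfies the hypotheses of RIG
(`x ≠ e` as `p e = 0`; `wd_val_one` for `x` and `x+e`).  `dim M = n - 1`: `M = ann b`, ST0. -/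
def S_A1 : Prop := ∀ (V : Type) [AddCommGroup V] [Module (ZMod 2) V] [Finite V] (e : V)
  (A : Fam V) (M : DSub V), MC e A → IsCone e A M →
  finrank (ZMod 2) M + 2 ≤ finrank (ZMod 2) V

/-- BNT. Blocks are proper and nonzero (as for `e = 0`). -/
def S_BNT : Prop := ∀ (V : Type) [AddCommGroup V] [Module (ZMod 2) V] [Finite V] (e : V)
  (A : Fam V) (X : DSub V), MC e A → Block e A X → X ≠ ⊤ ∧ X ≠ ⊥

/-- BLK. A block contained in `Y` is a component of `A[Y]` (as for `e = 0`, ES1 with `dim ≥ 3`). -/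
def S_BLK : Prop := ∀ (V : Type) [AddCommGroup V] [Module (ZMod 2) V] [Finite V] (e : V)
  (A : Fam V) (X Y : DSub V) (s : Set (DSub V)), EFam e A → Block e A X → X ≤ Y →
  Comps e (res A Y) s → X ∈ s

/-- OM. Basic facts on `om`: as for `e = 0` without parity; a block of dimension one is `⟨s⟩` with
`s e = 1` and form `sqf s` (EF.eq_sqf), and is good (`s ∈ F`, `ζ c = s` ⇒ `s c = ζ c c = ζ c e = s e = 1`,
`sqf s c = s`). -/
def S_OM : Prop := ∀ (V : Type) [AddCommGroup V] [Module (ZMod 2) V] [Finite V] (e : V) (A : Fam V)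
  (F : DSub V), EFam e A → LocBlock e A F → om e A F ∈ A ∧ om e A F ≠ 0 ∧ sp (om e A F) = F ∧
    (∀ η ∈ res A F, η = 0 ∨ η = om e A F) ∧ 1 ≤ finrank (ZMod 2) F ∧
    (finrank (ZMod 2) F = 1 → Good A F ∧ ∃ s : Dl V, s e = 1 ∧
      F = Submodule.span (ZMod 2) {s} ∧ om e A F = sqf s)

/-- MCE. Two intersecting different maximal cones: first reduction.
Proof.  `M ⊔ M' = ⊤`: otherwise both are `≤ ann b'`, `b' ≠ 0`, and are (BLK) two different components of a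
normal form of `A_{b'}`, disjoint.  `dim M ≤ n - 2` (A1), so there is `c₁ ≠ 0` killed by `M` with `p' c₁ = 0`.
Normal form `s` of `A_{c₁}` (MC.el, NF); `M ∈ s` (BLK).  `Z' = M' ⊓ ann c₁ ∋ p'`, `dim Z' ≥ dim M' - 1 ≥ 2`, contains
`M ⊓ M'` (as `M ≤ ann c₁`), `wd e p' g ∈ A_{c₁}` for `g ∈ Z'`.  `Z' ≤ M` is impossible: then `dim (M ⊓ M') ≥ dim M' - 1`
and `n = dim (M ⊔ M') ≤ dim M + 1`.  If `dim Z' ≥ 3` or `Z' ≤ ann e`: ES1: `Z' ≤ Z ∈ s`, `Z ⊓ M ≠ ⊥`, so `Z = M`,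
contradiction.  So `dim Z' = 2`, `dim M' = 3`, `Z' = {0,p',g,p'+g}`, `g e = 1`.  The components of
`wd e p' g`: if there is only one it contains `Z'`, contradiction as before.  So there are two, of
rank one: `sqf g` in `X₁` and `sqf (p'+g)` in `X₂ ≠ X₁`.  `0 ≠ h ∈ M ⊓ M' ≤ Z'`.  `h = p' = g + (p'+g)` contradicts
independence (`h ∈ M ∈ s`).  So `h ∈ {g, p'+g}`, `sqf h ∈ A`, and `r = p' + h` has `sqf r ∈ A`, `r e = 1`. -/
def S_MCE : Prop := ∀ (V : Type) [AddCommGroup V] [Module (ZMod 2) V] [Finite V] (e : V)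
  (A : Fam V) (M M' : DSub V) (p' h : Dl V), MC e A → MaxCone e A M → MaxCone e A M' →
  Cone e A M' p' → M ≠ M' → h ∈ M → h ∈ M' → h ≠ 0 →
  M ⊔ M' = ⊤ ∧ finrank (ZMod 2) M' = 3 ∧ h e = 1 ∧ h ≠ p' ∧ sqf h ∈ A ∧ sqf (p' + h) ∈ A

/-- MCL. The linear algebra contradiction behind MCD.
Proof.  `P = wd e p m`, `Q = wd e p' m'` (`p = h + t`, `p' = h + r`, `m e = m' e = 0`).  Coordinates of `v`:
`(h v, t v, m v, r v, m' v)` (a basis of the dual, `n = 5`); `e = (1,1,0,1,0)`.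
Let `c = (0,0,1,0,1)`, `a₁ = (0,1,1,1,1)`, `a₂ = (0,1,1,1,0)`.  `(P+Q) c = p + p' = t + r`,
`(sqf t + sqf r) a_i = t + r`.  Link: `ζ_i a_i = ζ_i c = t + r`.  `u_i = ζ_i e`, `u_i c = ζ_i c c = (t+r) c = 0`, so the
coefficients of `m`, `m'` in `u_i` are equal.  If they are `0`, `ζ_i + σ` kills `e` for some `σ ∈ ⟨sqf h, sqf t, sqf r⟩`,
so `ζ_i = σ + x P + y Q` (hypothesis on members killing `e`); at `c`: `x p + y p' = t + r`, `x = y = 1`; at `a_i` the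
coefficient of `m` in `ζ_i a_i` is `1` (`P a_i = p + m`), contradiction.  So they are `1` for both `i`, and `ζ₁ + ζ₂ = σ +
x P + y Q`, at `c`: `x = y = 0`.  `ζ₁ + ζ₂ = σ = x₁ sqf h + x₂ sqf t + x₃ sqf r`.  `d = a₁ + a₂ = (0,0,0,0,1)`:
`ζ₁ d = ζ₁ a₁ + ζ₂ a₂ + σ a₂ = x₂ t + x₃ r`, so `ζ₁ d d = 0`; but `ζ₁ d d = u₁ d = 1`. -/
def S_MCL : Prop := ∀ (V : Type) [AddCommGroup V] [Module (ZMod 2) V] [Finite V] (e : V)
  (A : Fam V) (h t m r m' : Dl V), EFam e A → Linked A → h e = 1 → t e = 1 → r e = 1 →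
  m e = 0 → m' e = 0 → LinearIndependent (ZMod 2) ![h, t, m, r, m'] →
  Submodule.span (ZMod 2) {h, t, m, r, m'} = (⊤ : DSub V) →
  sqf h ∈ A → sqf t ∈ A → sqf r ∈ A → wd e (h + t) m ∈ A → wd e (h + r) m' ∈ A →
  (∀ ζ ∈ A, ζ e = 0 → ζ = 0 ∨ ζ = wd e (h + t) m ∨ ζ = wd e (h + r) m' ∨
    ζ = wd e (h + t) m + wd e (h + r) m') → False

/-- MCD. Different maximal cones are disjoint.
Proof.  Suppose `0 ≠ h ∈ M ⊓ M'`.  MCE for `(M,M')` and `(M',M)`: `dim M = dim M' = 3`, `M ⊔ M' = ⊤`,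
`h e = 1`, `sqf h, sqf t, sqf r ∈ A` for `t = p + h`, `r = p' + h`, `t e = r e = 1`, `t, r ≠ 0`.  Every nonzero element of
`M ⊓ M'` has value 1 at `e` (MCE), so `M ⊓ M' = {0,h}` (`h + h'` would have value 0), `n = 5`.  Choose
`m ∈ M ∖ ⟨p,h⟩`, `m' ∈ M' ∖ ⟨p',h⟩` with value 0 at `e` (add `h`): `h,t,m,r,m'` is a basis.  Members killing `e`:
`A_e` (`e ≠ 0` as `h e = 1`) has a normal form `s` (MC.el, NF); `Z = ⟨p,m⟩ ≤ ann e`, ES1: `Z ≤ X₁ ∈ s`; `⟨p',m'⟩ ≤ X₂ ∈ s`;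
`ann e = ⟨p,m,p',m'⟩` has dimension 4.  If `X₁ = X₂ = ann e`: local is impossible (two different
forms `P = wd e p m ≠ Q = wd e p' m'`), a cone contradicts A1.  So `X₁ = ⟨p,m⟩`, `X₂ = ⟨p',m'⟩` (dimensions) are
local with forms `P`, `Q`, `A_e = {0,P,Q,P+Q}` (SPLIT; other components are zero-dimensional, none).  MCL. -/
def S_MCD : Prop := ∀ (V : Type) [AddCommGroup V] [Module (ZMod 2) V] [Finite V] (e : V)
  (A : Fam V) (M M' : DSub V), MC e A → MaxCone e A M → MaxCone e A M' → M ≠ M' → Disjoint M M'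

/-- A3.  Proof: `Z = M ⊓ ann b ∋ p` of dimension ≥ 2, `wd e p g ∈ A_b` for `g ∈ Z`.
(a) `Z ≤ M' ∈ s` for some `M'` (if `dim Z ≥ 3` or `Z ≤ ann e` by ES1; or if `dim Z = 2`, `g ∈ Z`, `g e = 1` and `wd e p g` has
only one component).  `M'` local: `M' = sp ω`, all `wd e p g ∈ {0,ω}`, `M' = ⟨p,g⟩ ≤ Z`.  `M'` a cone: it lies in a
maximal cone `M''` of `A` which meets `M`, so `M'' = M` (MCD), `M' ≤ M ⊓ ann b`.  So `M' = Z`.
(b) `Z = {0,p,g,p+g}`, `g e = 1` and `wd e p g` has two components of rank one, `sqf g` in `X₁`, `sqf (p+g)` in `X₂`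
(EF.eq_sqf): `X₁` local: its form is `sqf g` (Prim), `X₁ = ⟨g⟩`; `X₁` a cone: contained in a maximal cone `M₁ ∋ g`,
`M₁ = M` (MCD), `X₁ ≤ M ⊓ ann b = Z`, but `dim X₁ ≥ 3`.  Same for `X₂`. -/
def S_A3 : Prop := ∀ (V : Type) [AddCommGroup V] [Module (ZMod 2) V] [Finite V] (e : V)
  (A : Fam V) (M : DSub V) (p : Dl V) (b : V) (s : Set (DSub V)), MC e A → MaxCone e A M →
  Cone e A M p → b ≠ 0 → p b = 0 → ¬ M ≤ ann b → Comps e (res A (ann b)) s →
  M ⊓ ann b ∈ s ∨ ∃ t₁ t₂ : Dl V, Submodule.span (ZMod 2) {t₁} ∈ s ∧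
    Submodule.span (ZMod 2) {t₂} ∈ s ∧ Submodule.span (ZMod 2) {t₁} ≠ Submodule.span (ZMod 2) {t₂} ∧
    M ⊓ ann b = Submodule.span (ZMod 2) {t₁, t₂}

/-- CSP. Splitting off a maximal cone.  Proof: normal form of `A_d` (MC.el, NF), BLK (if `M ≤ ann d`) or A3,
and SPLIT with `t = {M ⊓ ann d}` or `t = {⟨t₁⟩, ⟨t₂⟩}`. -/
def S_CSP : Prop := ∀ (V : Type) [AddCommGroup V] [Module (ZMod 2) V] [Finite V] (e : V)
  (A : Fam V) (M : DSub V) (p : Dl V) (d : V), MC e A → MaxCone e A M → Cone e A M p → d ≠ 0 →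
  (M ≤ ann d ∨ p d = 0) → ∃ X' : DSub V, Disjoint (M ⊓ ann d) X' ∧
    res A (ann d) = res A (M ⊓ ann d) ⊔ res A X'

/-- A4. Maximal cones are good.
Proof. Let `f ∈ M`, `f = ζ₀ c`, `ζ₀ ∈ A`, and suppose `f ∉ i_c A[M]` (so `f, c ≠ 0`).  `p` an apex.
`f c = ζ₀ c c = ζ₀ c e = f e`.
(★) If `ζ ∈ A`, `d ≠ 0`, `ζ d = 0`, `ζ c = f`, and (`M ≤ ann d` or `p d = 0`) then contradiction: CSP:
`ζ = ζ₁ + ζ₂`, `ζ₁ ∈ A[M ⊓ ann d]`, `ζ₂ ∈ A[X']`, `f ∈ M ⊓ ann d` (`f d = ζ c d = 0`), so `f = ζ₁ c`.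
For `a` with `f ∈ i_a A[M]`: `a ≠ c`, link `ω a = f = ζ₀ c`: `ζ a = ζ c = f`, `ζ (a+c) = 0`, so by
(★) `p (a+c) = 1`.  If `f = p`: choose `g ∈ M`, `a` with `g a = 1`, `p a = 0` : `wd e p g a = p`, so
`p c = 1`, but `p c = f e = p e = 0`.  So `f ∉ ⟨p⟩`.  All `a` with `p a = 1`, `f a = f e` have
`wd e p f a = f`; hence `p c = 0`; put `D = {d : p d = 1, f d = 0}`; for `d ∈ D` there is `ζ ∈ A` with
`ζ d = 0`, `ζ c = f` (take `a = c + d`, `f a = f c = f e`).  For such `ζ`, `ker ζ = {0, d}`: otherwise there is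
`b' ∈ ker ζ`, `b' ≠ 0`, `p b' = 0`, contradiction by (★).
Counting: `Z = {ζ ∈ A : ζ c = f}` has `|A_c|` elements, contains the disjoint nonempty sets
`Z_d = {ζ ∈ Z : ζ d = 0}` (`d ∈ D`), each of size `|{ω ∈ A : ω c = ω d = 0}| = |A_c| / |i_d A_c|`,
and `|D| = 2^(n-2)`, `i_d A_c ≤ {g : g c = 0, g (d+e) = 0}` of size `2^(n-2)` (`p c = 0`, `p (d+e) = 1`).  So equality:
`i_d A_c = {g : g c = g (d+e) = 0}` for all `d ∈ D`.  If `d ∈ D` then `d+e+c ∈ D` (`f(e+c) = 0`) and, as members of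
`A_c` kill `c`, `i_{d+e} A_c = i_{d+e+c} A_c = {g : g c = 0, g (d+c) = 0} = {g : g c = g d = 0}`.
RIG1 for the family `A_c`, `X = ann c`, `x = d` (`p ∈ ann c`, `p d = 1`, `p e = 0`; `LU` from S_LU)
gives `q` with `q d = 1`, `q c = 0`, `q e = 0` and `wd e q g ∈ A` for all `g ∈ ann c`: ST0. -/
def S_A4 : Prop := ∀ (V : Type) [AddCommGroup V] [Module (ZMod 2) V] [Finite V] (e : V)
  (A : Fam V) (M : DSub V), MC e A → MaxCone e A M → Good A M

/-- DEC. As for `e = 0`; the form `π` constructed there satisfies `π v v = ζ a a = ζ a e = π v e`. -/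
def S_DEC : Prop := ∀ (V : Type) [AddCommGroup V] [Module (ZMod 2) V] [Finite V] (e : V)
  (A : Fam V) (X : DSub V), EFam e A →
  (LU e (res A X) → Good A X → ∀ ζ ∈ A, ∃ π, IsPr A X ζ π) ∧
  (∀ ζ ∈ A, ∀ π π', IsPr A X ζ π → IsPr A X ζ π' → π = π') ∧
  (∀ ζ ∈ A, ∀ π, IsPr A X ζ π →
    (∀ v, ζ v = 0 → π v = 0) ∧ sp π ≤ sp ζ ∧ (∀ v, ζ v ∈ X → π v = ζ v))

/-- STAR. Components of `A_b` versus a good block `X`.
Proof. Let `Z ∈ s` with `Z ⊓ X ≠ ⊥`.  `Z = sp ω` local: as for `e = 0`.  `Z` a cone with apex `q`: if `X` is a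
maximal cone, `Z` lies in a maximal cone meeting `X`, which is `X` (MCD).  If `X` is a local block with form
`ω_X` (`A[X] = {0,ω_X}`, `X` in no cone): for `g ∈ Z` the `X`-part `π` of `wd e q g` is `0` (if `π = ω_X`,
`X = sp π ≤ sp (wd e q g) ≤ Z`); but `0 ≠ h ∈ Z ⊓ X`, `h = wd e q g v` (CFULL) gives `π v = h ≠ 0` (DEC), contradiction.
Second part as for `e = 0` (FULL). -/
def S_STAR : Prop := ∀ (V : Type) [AddCommGroup V] [Module (ZMod 2) V] [Finite V] (e : V)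
  (A : Fam V) (X : DSub V) (b : V) (s : Set (DSub V)), MC e A → X ∈ GB e A → b ≠ 0 →
  Comps e (res A (ann b)) s →
  (∀ Z ∈ s, Z ≤ X ∨ Disjoint Z X) ∧ Disjoint (sSup {Z | Z ∈ s ∧ Disjoint Z X}) X

/-- ADD. The `X`-part is additive on each `A_b`, `b ≠ 0` (as for `e = 0`). -/
def S_ADD : Prop := ∀ (V : Type) [AddCommGroup V] [Module (ZMod 2) V] [Finite V] (e : V)
  (A : Fam V) (X : DSub V) (b : V) (ζ η π π' : Frm V), MC e A → X ∈ GB e A → b ≠ 0 → ζ ∈ A →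
  η ∈ A → ζ b = 0 → η b = 0 → IsPr A X ζ π → IsPr A X η π' → IsPr A X (ζ + η) (π + π')

/-- BDIS. A good block is disjoint from every other block (as for `e = 0`). -/
def S_BDIS : Prop := ∀ (V : Type) [AddCommGroup V] [Module (ZMod 2) V] [Finite V] (e : V)
  (A : Fam V) (X Y : DSub V), MC e A → X ∈ GB e A → Block e A Y → X ≠ Y → Disjoint X Y

/-- COMP. `X`-parts do not change when a member of `A[Y]` is added (a cone exists).
Proof.  As for `e = 0`, without parity: write `π_X` for the `X`-part (DEC; `LU` by S_LU).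
Step 1. Reduce to `Disjoint (sp ζ) Y`: write `ζ = ζ' + η₀`, `η₀ = π_Y(ζ)`, and use the case for
`(ζ', η₀)` and `(ζ', η₀ + η)`.
Step 2. Suppose `Disjoint (sp ζ) Y` and `π_X(ζ+η) ≠ π_X(ζ)`.  `ker (ζ+η) = ker ζ ⊓ ker η` must be `0`
(else ADD).  So `θ = ζ + η` is nondegenerate, `sp ζ ⊔ sp η = ⊤` disjoint, `sp η = Y`.
`α = π_X(θ)`, `σ = θ + α`; `sp α ⊔ sp σ = ⊤`, `sp σ ⊓ X = ⊥`, so `sp α = X ≠ ⊥`.
`τ = σ + η = ζ + α`.  (i) if `b ≠ 0` is killed by `σ` and `Y` then ADD on `σ, η`: `π_X(τ) = 0`, so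
`π_X(ζ) = α`, contradiction.  So `ker σ ⊓ Y^⊥ = 0`.  (ii) if `b ≠ 0` is killed by `ζ` and `X`: ADD for `Y` on `ζ, α`:
`π_Y(τ) = 0`, then `ker σ = ker (τ + η) = ker τ ⊓ ker η ≤ Y^⊥`, and `ker σ ≠ 0`, contradicting (i).  So
`ker ζ ⊓ X^⊥ = 0`.  Hence `dim X = dim Y` and, counting dimensions,
`sp ζ ⊔ X = ⊤` is a direct sum: `π_X(ζ) = 0`; similarly `π_Y(σ) = 0`.
So every violation `(ζ, η)` (with `sp ζ ⊓ Y = ⊥`) satisfies: `π_X(ζ) = 0`, `dim X = dim Y = m`, and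
`(σ, α)` is a violation for `(Y, X)`.
Step 3. If `X` is a cone, apex `p`, `m ≥ 3`: choose `g ∈ X ∖ ⟨p⟩`, `ζ' = ζ + wd e p g`;
`ker ζ ⊓ ker (wd e p g) ≠ 0` (dimension ≥ m - 2), so `π_Y(ζ') = 0` by ADD and `π_X(ζ') = wd e p g`;
`θ + wd e p g = σ + (α + wd e p g)`, `π_X(θ + wd e p g) = α + wd e p g ≠ wd e p g`: `(ζ', η)` is a violation
with `π_X(ζ') ≠ 0`, contradiction.  If `Y` is a cone use the violation `(σ, α)` for `(Y, X)`.
Step 4. If `X`, `Y` are both local, let `M` be a maximal cone; it is a good block (A4)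
different from `X`, `Y`; let `μ = π_M(θ)`; by Step 3, `π_X(θ+μ) = π_X(θ)`, `π_X(ζ+μ) = π_X(ζ)`,
`π_Y(ζ+μ) = π_Y(ζ) = 0`; so `(ζ+μ, η)` is a violation, hence `θ + μ` is nondegenerate; but
`sp (θ + μ)` is disjoint from `M ≠ ⊥`. -/
def S_COMP : Prop := ∀ (V : Type) [AddCommGroup V] [Module (ZMod 2) V] [Finite V] (e : V)
  (A : Fam V) (X Y : DSub V) (ζ η π : Frm V), MC e A → (∃ Z : DSub V, IsCone e A Z) →
  X ∈ GB e A → Y ∈ GB e A → X ≠ Y → ζ ∈ A → η ∈ res A Y → IsPr A X ζ π → IsPr A X (ζ + η) π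

/-! ### case A: there is a cone -/

/-- FIND. As for `e = 0`. -/
def S_FIND : Prop := ∀ (V : Type) [AddCommGroup V] [Module (ZMod 2) V] [Finite V] (e : V)
  (A : Fam V) (N : Set (DSub V)), FW e A → N ⊆ BB e A → sSup N ≠ ⊤ → sSupIndep (GB e A ∪ N)

/-- FDEC. As for `e = 0` (a cone exists, so a maximal cone `M`, a good block, exists; for nondegenerate
`ζ` use that `ζ + π_M(ζ)` is degenerate). -/
def S_FDEC : Prop := ∀ (V : Type) [AddCommGroup V] [Module (ZMod 2) V] [Finite V] (e : V)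
  (A : Fam V) (ζ : Frm V), FW e A → ζ ∈ A → ∃ N : Finset (DSub V), (N : Set (DSub V)) ⊆ BB e A ∧
    sSup (N : Set (DSub V)) ≠ ⊤ ∧ ∃ γ ∈ ⨆ X ∈ GB e A, res A X, ζ = γ + ∑ F ∈ N, om e A F

/-- FUNI. As for `e = 0`. -/
def S_FUNI : Prop := ∀ (V : Type) [AddCommGroup V] [Module (ZMod 2) V] [Finite V] (e : V)
  (A : Fam V) (N N' : Finset (DSub V)) (γ γ' : Frm V), FW e A → (N : Set (DSub V)) ⊆ BB e A →
    (N' : Set (DSub V)) ⊆ BB e A → sSup (N : Set (DSub V)) ≠ ⊤ → sSup (N' : Set (DSub V)) ≠ ⊤ →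
    γ ∈ (⨆ X ∈ GB e A, res A X) → γ' ∈ (⨆ X ∈ GB e A, res A X) →
    γ + ∑ F ∈ N, om e A F = γ' + ∑ F ∈ N', om e A F → γ = γ' ∧ N = N'

/-- ELI. Independent sums of families of elementary type. -/
def S_ELI : Prop := ∀ (V : Type) [AddCommGroup V] [Module (ZMod 2) V] [Finite V] (e : V)
  (A : Fam V) (s : Set (DSub V)), sSupIndep s → (∀ X ∈ s, El e (res A X)) →
  A = (⨆ X ∈ s, res A X) → El e A

/-- F5. In case A the bad blocks span (as for `e = 0`). -/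
def S_F5 : Prop := ∀ (V : Type) [AddCommGroup V] [Module (ZMod 2) V] [Finite V] (e : V)
  (A : Fam V), FW e A → sSup (BB e A) = ⊤

/-- NG. In case A, for each bad block `B` there is `c ≠ 0` killing many bad blocks (as for `e = 0`). -/
def S_NG : Prop := ∀ (V : Type) [AddCommGroup V] [Module (ZMod 2) V] [Finite V] (e : V)
  (A : Fam V) (B : DSub V), FW e A → B ∈ BB e A → ∃ c : V, c ≠ 0 ∧
    finrank (ZMod 2) V ≤ finrank (ZMod 2) B + finrank (ZMod 2) (PP e A) + (BBL e A c).ncard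

/-- BEV. Bad blocks are local (A4) of dimension at least two (OM: blocks of dimension one are
good). -/
def S_BEV : Prop := ∀ (V : Type) [AddCommGroup V] [Module (ZMod 2) V] [Finite V] (e : V)
  (A : Fam V), MC e A → ∀ F ∈ BB e A, LocBlock e A F ∧ 2 ≤ finrank (ZMod 2) F

/-- C1A. All bad blocks are complements of `P = PP A` (as for `e = 0`).
Changes: `dim B ≥ 2` by BEV; for `g₀ = ψ_M(h) ∉ ⟨p⟩` the allowed `λ` are those with `p λ = 1`,
`g₀ λ = g₀ e` (`wd_val_one`); their differences are the `u` with `p u = 0`, `g₀ u = 0`, as before. -/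
def S_C1A : Prop := ∀ (V : Type) [AddCommGroup V] [Module (ZMod 2) V] [Finite V] (e : V)
  (A : Fam V), FW e A →
  (∀ B ∈ BB e A, finrank (ZMod 2) B + finrank (ZMod 2) (PP e A) = finrank (ZMod 2) V) → False

/-- C1B. All bad blocks have dimension `m` or `m+1`, `m` occurs, `n = m + 1 + d`, `d = dim P`.
Proof.  `m ≥ 2` (BEV), `d ≥ 3` (a maximal cone is a good block).  A set of bad blocks that does not span
has at most one element (FIND: `2m ≤ m+1` otherwise).  By F5 and BNT there are at least two bad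
blocks.  `A_g = ⨆ res A X` (good `X`), `U = P^⊥` has dimension `m+1` and `A_g` kills `U`.  By FDEC and FUNI
every member is uniquely `γ` or `γ + om B`; `#BB = 2^D - 1`.  A bad `B` of dimension `m+1` is a complement
of `P`, `om B` kills no nonzero element of `U`; for a bad `B` of dimension `m`, `B + P` is a hyperplane,
`B^⊥ ⊓ U = {0, c_B}`; `𝒞 = {c_B}`; the `c_B` are different (two bad blocks killed by the same `c ≠ 0`
do not span).  An element `ζ ∈ A ∖ A_g` with `ζ b = 0`, `b ∈ U ∖ 0`, exists iff `b ∈ 𝒞`.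
Claim: `B'` of dimension `m`, `B ≠ B'` bad, `b ∈ U ∖ 0`, `om B b c_{B'} = 0` ⇒ `b ∈ 𝒞`.  If `om B b = 0` clear.
`f = om B b ∈ B`, `f ≠ 0`, `f(c_{B'}) = 0` so `f = f' + g ∈ B' ⊕ P`, `f' ≠ 0`.  Choose `a`, `γ ∈ A_g` with
`om B' a = f'`, `γ a = g` (GLUE, BFULL; `a` may be changed by `c_{B'}`).  Link `(om B' + γ) a = f = om B b`:
`ζ a = ζ b = f`, `ζ = γ₁ + om B₁` (`f ≠ 0` and `γ₁ b = 0`), `om B₁ b = f = om B b`.  If `B₁ ≠ B`, `om B + om B₁ ∉ A_g`
kills `b`: `b ∈ 𝒞`.  If `B₁ = B`: `om B a + f = γ₁ a ∈ B ⊓ P = ⊥`, so `om B a = f`.  If `b ∉ 𝒞` this holds for `a` and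
`a + c_{B'}`, so `om B c_{B'} = 0`, `c_{B'} ∈ U ⊓ B^⊥`, contradiction (`c_{B'} ≠ c_B`).
So for `B' ` of dimension `m`, `B ≠ B'`: `𝒞 ⊇ {b ∈ U : om B c_{B'} b = 0} ∖ 0`, a hyperplane of `U` minus `0`.
The functionals `om B c_{B'}` restricted to `U` (`B ≠ B'`), with `0`, form a subspace of dimension `D - 1`.
`D ≥ 3`: two different nonzero ones `φ₁, φ₂` and `φ₁ + φ₂`: the three hyperplanes cover `U`, so
`𝒞 = U ∖ 0`; the sets `B^⊥ ∖ 0` (`2^(d+1) - 1` elements, `B` of dimension `m`) are disjoint: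
`(2^(m+1) - 1)(2^(d+1) - 1) ≤ 2^(m+1+d) - 1`, false for `d ≥ 1`, `m ≥ 1`.
`D = 2` (`D ≥ 2` as there are two bad blocks): `2^m - 1 ≤ #𝒞 ≤ 3`, so `m = 2` and all three bad blocks
have dimension 2; two of them span `V*`: `n ≤ 4`, but `n = 3 + d ≥ 6`. -/
def S_C1B : Prop := ∀ (V : Type) [AddCommGroup V] [Module (ZMod 2) V] [Finite V] (e : V)
  (A : Fam V) (m : ℕ), FW e A →
  (∀ B ∈ BB e A, finrank (ZMod 2) B = m ∨ finrank (ZMod 2) B = m + 1) →
  (∃ B ∈ BB e A, finrank (ZMod 2) B = m) →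
  m + finrank (ZMod 2) (PP e A) + 1 = finrank (ZMod 2) V → False

/-- C2. `n = dim P + 4`, `n ≥ 7`, a bad block `B₀` of dimension 2.
Proof.  For a bad `B' ≠ B₀`: `dim B' ≤ 4` (FIND for `{B'}`), so `{B₀, B'}` does not span (`n ≥ 7`), is
independent with `P` (FIND), so `dim B' ≤ 2`, `= 2` (BEV).  Three different bad blocks would not span
(`6 < n`), be independent with `P`: `6 ≤ 4`.  So at most two bad blocks, they do not span: F5. -/
def S_C2 : Prop := ∀ (V : Type) [AddCommGroup V] [Module (ZMod 2) V] [Finite V] (e : V)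
  (A : Fam V), FW e A → finrank (ZMod 2) V = finrank (ZMod 2) (PP e A) + 4 →
  7 ≤ finrank (ZMod 2) V → (∃ B ∈ BB e A, finrank (ZMod 2) B = 2) → False

/-- FWF. Case A is impossible.
Proof.  F5: a bad block exists.  `m` = minimal dimension of a bad block (`≥ 2`, BEV), `n' = n - dim P`,
`dim P ≥ 3`.  By FIND every bad block has `dim ≤ n'`.  NG for `B` of dimension `m`: `c ≠ 0`,
`k = ncard (BBL A c) ≥ n' - m`; `BBL A c` does not span, so by FIND, IDIM: `k m ≤ n'`.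
`m (n' - m) ≤ n'` gives `n' = m` (C1A), `n' = m + 1` (C1B) or `m = 2`, `n' = 4` (C2). -/
def S_FWF : Prop := ∀ (V : Type) [AddCommGroup V] [Module (ZMod 2) V] [Finite V] (e : V)
  (A : Fam V), FW e A → False

/-! ### case B: no cones -/

/-- CB1. The blocks killed by `b ≠ 0` are the components of `A_b` (as for `e = 0`, no parity). -/
def S_CB1 : Prop := ∀ (V : Type) [AddCommGroup V] [Module (ZMod 2) V] [Finite V] (e : V)
  (A : Fam V) (b : V), CB e A → b ≠ 0 → Comps e (res A (ann b)) (BL e A b) ∧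
    finrank (ZMod 2) (res A (ann b)) = (BL e A b).ncard ∧
    finrank (ZMod 2) (sSup (BL e A b) : DSub V) + 1 ≤ finrank (ZMod 2) V

/-- L2. As for `e = 0`. -/
def S_L2 : Prop := ∀ (V : Type) [AddCommGroup V] [Module (ZMod 2) V] [Finite V] (e : V)
  (A : Fam V), EFam e A → Linked A → (∀ b : V, b ≠ 0 → ∀ ω ∈ A, ω b = 0 → ω = 0) → El e A

/-- MD. Minimal dependent sets of blocks (as for `e = 0`). -/
def S_MD : Prop := ∀ (V : Type) [AddCommGroup V] [Module (ZMod 2) V] [Finite V] (e : V)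
  (A : Fam V) (D : Set (DSub V)) (X : DSub V), CB e A → (∀ Z ∈ D, Block e A Z) → ¬ sSupIndep D →
  (∀ D' : Set (DSub V), D' ⊆ D → D' ≠ D → sSupIndep D') → X ∈ D → Good A X → sSup (D \ {X}) = ⊤

/-- NGC. A bad block `F` (local) has `c ≠ 0` with `n ≤ dim F + ncard (BL A c)`, and if `BL A c` contains a
good block even `n + 1 ≤ …`.
Proof: `f ∈ F`, `f = ζ₀ c`, `f ∉ i_c A[F]`.  `C = {a : om A F a = f}`, `|C| = 2^(n - dim F)`.  For `a ∈ C` link:
`ζ_a a = ζ_a c = f`; `ker ζ_a ⊓ F^⊥ = 0` (as for `e = 0`).  `ζ_a = ζ_{a'}` implies `a = a'`.  `ζ_a + ζ_{a'} ∈ A_c`, so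
`|C| ≤ |A_c| = 2^(ncard (BL A c))` (CB1).  If `X ∈ BL A c` is good (`A[X] = {0, om X}`, `om X c = 0`): the
`X`-part `π` of `ζ_a` (DEC) is `0` or `om X`, kills `c`, so `f = ζ_a c ∈ sp (ζ_a + π)`; `f = ζ_a a = π a + (ζ_a+π) a` and
the supports of `π`, `ζ_a + π` are disjoint with sum `sp ζ_a`, so `π a = 0`.  Replace `ζ_a` by `ζ_a + π`: it has
`X`-part `0`, the same two values, and the forms are still different (same argument).  The forms
`ζ_a + om X` have `X`-part `om X`.  So `{ζ ∈ A : ζ c = f}` has at least `2 |C|` elements. -/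
def S_NGC : Prop := ∀ (V : Type) [AddCommGroup V] [Module (ZMod 2) V] [Finite V] (e : V)
  (A : Fam V) (F : DSub V), CB e A → F ∈ BB e A → ∃ c : V, c ≠ 0 ∧
    finrank (ZMod 2) V ≤ finrank (ZMod 2) F + (BL e A c).ncard ∧
    ((∃ X ∈ BL e A c, Good A X) →
      finrank (ZMod 2) V + 1 ≤ finrank (ZMod 2) F + (BL e A c).ncard)

/-- HH. Two good blocks, `h = x₁ + x₂ = ζ a` with `om A X₁ a ≠ x₁`; improvement as in NGC.
Proof.  As for `e = 0`: `C = {v : om A X₁ v = x₁, om A X₂ v = x₂}`, `|C| = 2^(n - dim X₁ - dim X₂)`, `ζ_v v = ζ_v a = h`,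
`ker ζ_v ⊓ (X₁+X₂)^⊥ = 0`, `v ↦ ζ_v` injective.  If `X ∈ BL A a` is good: the `X`-part `π` of `ζ_v` kills `a`, so
`h ∈ sp (ζ_v + π)` and `π v = 0`; replace `ζ_v` by `ζ_v + π`; the forms `ζ_v + om X` are further members of
`{ζ ∈ A : ζ a = h}`. -/
def S_HH : Prop := ∀ (V : Type) [AddCommGroup V] [Module (ZMod 2) V] [Finite V] (e : V)
  (A : Fam V) (X₁ X₂ : DSub V) (x₁ x₂ : Dl V) (ζ : Frm V) (a : V), CB e A → X₁ ∈ GB e A →
  X₂ ∈ GB e A → X₁ ≠ X₂ → x₁ ∈ X₁ → x₂ ∈ X₂ → x₁ ≠ 0 → ζ ∈ A → ζ a = x₁ + x₂ →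
  om e A X₁ a ≠ x₁ →
  finrank (ZMod 2) V ≤ finrank (ZMod 2) X₁ + finrank (ZMod 2) X₂ + (BL e A a).ncard ∧
  ((∃ X ∈ BL e A a, Good A X) →
    finrank (ZMod 2) V + 1 ≤ finrank (ZMod 2) X₁ + finrank (ZMod 2) X₂ + (BL e A a).ncard)

/-- EXC. Exchange.  `F` bad, `N` a set of good blocks, `{F} ∪ N` minimal dependent (a circuit).  Then
`N` has at least two elements, all `X ∈ N` have the same dimension `d`, `n = dim F + (|N| - 1) d`, every
good block has dimension `d`, and for every good `X ∉ N` and `Y ∈ N`, `{F, X} ∪ (N ∖ Y)` is a circuit.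
Proof.  `|N| ≥ 2` by BDIS.  MD: `sSup (({F} ∪ N) ∖ {X}) = ⊤` for `X ∈ N`, an independent set, so (IDIM)
`n = dim F + ∑_{N ∖ X} dim`; hence all equal.  `X ∉ N` good, `Y ∈ N`: `𝔅 = {F} ∪ (N ∖ Y)` is independent and
spans, `𝔅 ∪ {X}` is dependent, a minimal dependent subset `D'` contains `X`, MD: `sSup (D' ∖ X) = ⊤`, so
`D' ∖ X = 𝔅` (IDIM and blocks are nonzero); MD for `Z ∈ N ∖ Y`: `dim X = dim Z`. -/
def S_EXC : Prop := ∀ (V : Type) [AddCommGroup V] [Module (ZMod 2) V] [Finite V] (e : V)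
  (A : Fam V) (F : DSub V) (N : Finset (DSub V)), CB e A → F ∈ BB e A →
  (N : Set (DSub V)) ⊆ GB e A → ¬ sSupIndep (insert F (N : Set (DSub V))) →
  (∀ D' : Set (DSub V), D' ⊆ insert F (N : Set (DSub V)) → D' ≠ insert F (N : Set (DSub V)) →
    sSupIndep D') →
  ∃ d : ℕ, 1 ≤ d ∧ 2 ≤ N.card ∧ (∀ X ∈ GB e A, finrank (ZMod 2) X = d) ∧
    finrank (ZMod 2) V = finrank (ZMod 2) F + (N.card - 1) * d ∧
    ∀ X ∈ GB e A, X ∉ N → ∀ Y ∈ N,
      ¬ sSupIndep (insert F (insert X ((N : Set (DSub V)) \ {Y}))) ∧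
      ∀ D' : Set (DSub V), D' ⊆ insert F (insert X ((N : Set (DSub V)) \ {Y})) →
        D' ≠ insert F (insert X ((N : Set (DSub V)) \ {Y})) → sSupIndep D'

/-- B1B. A bad `F` with `c ≠ 0` as in NGC and a circuit `{F} ∪ N`, `N ⊆ BL A c` good of dimension
`d ≥ 2`.  Proof.  `g = n - dim F = (t-1) d` (EXC), `t = |N| ≥ 2`, all good blocks have dimension `d`.  All
blocks have dimension ≥ 2 (BEV), so `2 ncard (BL A b) + 1 ≤ n` for `b ≠ 0` (CB1, IDIM).  A bad block `F'` has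
(NGC) `c'` with `n - dim F' ≤ ncard (BL A c')`, so `2 (n - dim F') + 1 ≤ n`; in particular for `F`:
`2 d ≤ 2 g ≤ n - 1`, and `2 dim F' ≥ n + 1 > 2 d`.  So all blocks have dimension ≥ d and
`d ncard (BL A b) + 1 ≤ n` for all `b ≠ 0`; for `b = c`, `ncard ≥ g + 1` (the improvement, `N ≠ ∅`):
`d (g+1) + 1 ≤ n`.  Take `X₁ ≠ X₂ ∈ N`, nonzero `x_i ∈ X_i`, `h = x₁ + x₂`,
`ζ = om F + ∑_{X ∈ N ∖ X₂} om X` (support `⊤`), `ζ a = h`.  `om X₁ a ≠ x₁`: otherwise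
`x₂ = h + x₁ ∈ F ⊕ ⨁_{N ∖ {X₁,X₂}} X`, contradicting independence of `({F} ∪ N) ∖ {X₁}`.  `a ≠ 0`.  If
`BL A a` contains a good block, HH gives `n + 1 ≤ 2d + ncard (BL A a)` and `d ncard (BL A a) + 1 ≤ n`:
`d (n + 1 - 2d) ≤ n - 1`, so `(d-1) n ≤ (2d+1)(d-1)`, `n ≤ 2d + 1`.  Otherwise `BL A a` consists of bad
blocks of dimension ≥ (n+1)/2, at most one, so `n ≤ 2d + 1` again (HH).  Then `d (g+1) ≤ n - 1 ≤ 2d`, `g ≤ 1`, but
`g ≥ d ≥ 2`. -/
def S_B1B : Prop := ∀ (V : Type) [AddCommGroup V] [Module (ZMod 2) V] [Finite V] (e : V)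
  (A : Fam V) (F : DSub V) (c : V) (N : Finset (DSub V)) (d : ℕ), CB e A → F ∈ BB e A → c ≠ 0 →
  finrank (ZMod 2) V + 1 ≤ finrank (ZMod 2) F + (BL e A c).ncard →
  (N : Set (DSub V)) ⊆ GB e A → (N : Set (DSub V)) ⊆ BL e A c →
  ¬ sSupIndep (insert F (N : Set (DSub V))) →
  (∀ D' : Set (DSub V), D' ⊆ insert F (N : Set (DSub V)) → D' ≠ insert F (N : Set (DSub V)) →
    sSupIndep D') → 2 ≤ d → (∀ X ∈ N, finrank (ZMod 2) X = d) → False

/-- B1H. `F` bad, `{F} ∪ N` a circuit of good blocks `N` of dimension one; `⟨s₁⟩ ≠ ⟨s₂⟩ ∈ N`.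
Then there is `a ≠ 0` such that `BL A a` consists of exactly `n - 1` good blocks of dimension one,
including `⟨s₁⟩`; and if all `X ∈ N` except possibly `⟨s₂⟩` kill `a` then `s₁ + s₂ = om F a`.
Proof.  `ζ = om F + ∑_{X ∈ N ∖ ⟨s₂⟩} om X` has support `⊤` (MD, independent set), so `ζ a = s₁ + s₂` for some
`a ≠ 0`.  `s₁ a = 0`: otherwise `om ⟨s₁⟩ a = s₁` and `s₂ = (s₁+s₂) + s₁ ∈ F ⊕ ⨁_{N ∖ {s₁,s₂}}`, contradicting
independence of `({F} ∪ N) ∖ {⟨s₁⟩}`.  So `om ⟨s₁⟩ a = 0 ≠ s₁`, HH: `⟨s₁⟩ ∈ BL A a` is good, so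
`n + 1 ≤ 2 + ncard (BL A a)`; the sum of the dimensions of the blocks in `BL A a` is ≤ n - 1 (CB1,
IDIM), so there are `n - 1` and all have dimension one, hence are good (OM; blocks are local). -/
def S_B1H : Prop := ∀ (V : Type) [AddCommGroup V] [Module (ZMod 2) V] [Finite V] (e : V)
  (A : Fam V) (F : DSub V) (N : Finset (DSub V)) (s₁ s₂ : Dl V), CB e A → F ∈ BB e A →
  (N : Set (DSub V)) ⊆ GB e A → ¬ sSupIndep (insert F (N : Set (DSub V))) →
  (∀ D' : Set (DSub V), D' ⊆ insert F (N : Set (DSub V)) → D' ≠ insert F (N : Set (DSub V)) →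
    sSupIndep D') → (∀ X ∈ N, finrank (ZMod 2) X = 1) →
  Submodule.span (ZMod 2) {s₁} ∈ N → Submodule.span (ZMod 2) {s₂} ∈ N → s₁ ≠ 0 → s₂ ≠ 0 → s₁ ≠ s₂ →
  ∃ a : V, a ≠ 0 ∧ s₁ a = 0 ∧ (BL e A a).ncard + 1 = finrank (ZMod 2) V ∧
    (∀ X ∈ BL e A a, Good A X ∧ finrank (ZMod 2) X = 1) ∧
    ((∀ X ∈ N, X ≠ Submodule.span (ZMod 2) {s₂} → X ≤ ann a) → s₁ + s₂ = om e A F a)

/-- B1A. A circuit `{F} ∪ N`, `F` bad, `N` at least three good blocks of dimension one.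
Proof.  `N = {⟨s_i⟩}`.  A dependent set whose proper subsets are independent has a relation with all
terms nonzero, so `∑_{N} s_i ∈ F`.  Every good block is in `N`: if `⟨s⟩ ∉ N` is good (dimension one by EXC),
EXC gives `s + ∑_{N ∖ Y} s_i ∈ F`, so `s + s_Y ∈ F` for all `Y ∈ N`, so `s_Y + s_{Y'} ∈ F`, contradicting
independence of `{F, Y, Y'}` (`|N| ≥ 3`).  B1H for `⟨s₁⟩ ≠ ⟨s₂⟩ ∈ N`: `BL A a ⊆ N` has `n - 1` elements, and
`|N| = n - dim F + 1 ≤ n - 1` (EXC, BEV), so `BL A a = N`, all members of `N` kill `a`, `s₁ + s₂ = om F a ∈ F`,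
contradiction as before. -/
def S_B1A : Prop := ∀ (V : Type) [AddCommGroup V] [Module (ZMod 2) V] [Finite V] (e : V)
  (A : Fam V) (F : DSub V) (N : Finset (DSub V)), CB e A → F ∈ BB e A →
  (N : Set (DSub V)) ⊆ GB e A → ¬ sSupIndep (insert F (N : Set (DSub V))) →
  (∀ D' : Set (DSub V), D' ⊆ insert F (N : Set (DSub V)) → D' ≠ insert F (N : Set (DSub V)) →
    sSupIndep D') → (∀ X ∈ N, finrank (ZMod 2) X = 1) → 3 ≤ N.card → False

/-- B1P. `F` a bad hyperplane, `s₁ ≠ s₂` with `⟨s_i⟩` good blocks (so `s_i e = 1`, OM).  Then there is `a ≠ 0`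
with `s₁ a = s₂ a = 0`, `om F a = s₁ + s₂` and exactly `n - 1` good blocks of dimension one killing `a`.
Proof.  Good blocks are disjoint from `F` (BDIS).  `{F, ⟨s₁⟩, ⟨s₂⟩}` is a circuit (pairs are disjoint, sum of
dimensions `n + 1`).  B1H with `N = {⟨s₁⟩,⟨s₂⟩}`; `s₂ a = (s₁+s₂) a = om F a a = om F a e = (s₁+s₂) e = 0`. -/
def S_B1P : Prop := ∀ (V : Type) [AddCommGroup V] [Module (ZMod 2) V] [Finite V] (e : V)
  (A : Fam V) (F : DSub V) (s₁ s₂ : Dl V), CB e A → F ∈ BB e A →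
  finrank (ZMod 2) F + 1 = finrank (ZMod 2) V → s₁ ≠ 0 → s₂ ≠ 0 → s₁ ≠ s₂ →
  Submodule.span (ZMod 2) {s₁} ∈ GB e A → Submodule.span (ZMod 2) {s₂} ∈ GB e A →
  ∃ a : V, a ≠ 0 ∧ s₁ a = 0 ∧ s₂ a = 0 ∧ om e A F a = s₁ + s₂ ∧
    (BL e A a).ncard + 1 = finrank (ZMod 2) V ∧
    (∀ X ∈ BL e A a, Good A X ∧ finrank (ZMod 2) X = 1)

/-- B1N. `F` a bad hyperplane, two good blocks exist, the good blocks do not span: impossible.
Proof.  Good blocks are disjoint from `F`, so are `⟨s⟩` with `s e = 1` (OM).  `sSup (GB A) ≤ ann r`, `r ≠ 0`: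
`GB A ⊆ BL A r`, independent (CB1), so `ncard (GB A) ≤ n - 1` and `dim sSup (GB A) = ncard (GB A)`.  B1P for any two:
`BL A a ⊆ GB A` with `n - 1` elements, so `BL A a = GB A`, `ncard (GB A) = n - 1`, the sum is the hyperplane
`ann r` and also `≤ ann a`, so `a = r`.  So `om F r = s₁ + s₂` for all pairs, but there are at least
`n - 1 ≥ 3` good blocks: `s₁ + s₂ = s₁ + s₃`, contradiction. -/
def S_B1N : Prop := ∀ (V : Type) [AddCommGroup V] [Module (ZMod 2) V] [Finite V] (e : V)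
  (A : Fam V) (F X₁ X₂ : DSub V), CB e A → F ∈ BB e A →
  finrank (ZMod 2) F + 1 = finrank (ZMod 2) V → X₁ ∈ GB e A → X₂ ∈ GB e A → X₁ ≠ X₂ →
  sSup (GB e A) ≠ ⊤ → False

/-- B1R. `F` a bad hyperplane, the good blocks span.  Then every nonempty relation between the `s` with
`⟨s⟩` a good block has at least `n + 1` terms, and a relation with exactly `n + 1` terms has
`∑ sqf s = om F`.
Proof.  `F = ann b`; `s b = 1` (BDIS) and `s e = 1` (OM) for all these `s`, which span, so `b = e`, `F = ann e`.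
`BL A e = {F}` (blocks in `ann e` other than `F` would be disjoint from `F`, components by CB1), so
`A_e = {0, om F}` (CB1).  Let `I` be a nonempty relation with the least number of terms and suppose
`|I| ≤ n`.  `∑_I sqf s` kills `e`, so it is `0` or `om F`.  If `0`: choose `v` with `s v ≠ s' v` for some
`s, s' ∈ I`; `0 = (∑_I sqf s) v = ∑_{s ∈ I, s v = 1} s` is a smaller nonempty relation.  If `om F`:
`F = sp (om F) ≤ span I`, and `s ∉ F` for `s ∈ I`, so `span I = ⊤`, of dimension ≤ |I| - 1, contradiction.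
If `|I| = n + 1` and `∑_I sqf s = 0`, the same splitting gives a nonempty relation with ≤ n terms. -/
def S_B1R : Prop := ∀ (V : Type) [AddCommGroup V] [Module (ZMod 2) V] [Finite V] (e : V)
  (A : Fam V) (F : DSub V), CB e A → F ∈ BB e A →
  finrank (ZMod 2) F + 1 = finrank (ZMod 2) V → sSup (GB e A) = ⊤ →
  ∀ I : Finset (Dl V), (∀ s ∈ I, s ≠ 0 ∧ Submodule.span (ZMod 2) {s} ∈ GB e A) → I.Nonempty →
    ∑ s ∈ I, s = 0 → finrank (ZMod 2) V + 1 ≤ I.card ∧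
      (I.card = finrank (ZMod 2) V + 1 → ∑ s ∈ I, sqf s = om e A F)

/-- B1S. `F` a bad hyperplane, the good blocks span: impossible.
Proof.  Good blocks are `⟨s⟩`, `s e = 1` (OM; disjoint from the hyperplane `F`).  Let `m` be their number; `m ≥ n ≥ 4`.
By B1R any `n` of the `s` are independent, `m ≤ n + 1` (`n + 2` of them give two different relations with
`n + 1` terms, whose sum is a relation with two terms).  For `s_i ≠ s_j` let `a_{ij}` be as in B1P.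
`m = n`: exactly one `s_k` has `s_k a_{ij} = 1`, so `a_{ij}` is the dual basis vector `v_k`; there are more
pairs than indices (`n ≥ 4`), so two different pairs have the same `k`: `s_i + s_j = s_{i'} + s_{j'}`,
contradicting independence.  `m = n + 1`: `om F = ∑ sqf s` over all `s` (B1R), exactly two `s_k, s_l`
have value 1 at `a_{ij}`, `k, l ≠ i, j`, `om F a_{ij} = s_k + s_l = s_i + s_j`: a relation with 4 < n + 1 terms. -/
def S_B1S : Prop := ∀ (V : Type) [AddCommGroup V] [Module (ZMod 2) V] [Finite V] (e : V)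
  (A : Fam V) (F : DSub V), CB e A → F ∈ BB e A →
  finrank (ZMod 2) F + 1 = finrank (ZMod 2) V → sSup (GB e A) = ⊤ → False

/-- B2. All bad blocks are hyperplanes.
Proof.  It suffices to show `g = 1` for a bad `F` of minimal dimension `n - g` (BNT: `g ≥ 1`).  `c` as in NGC,
`G` = good blocks in `BL A c`, `k` = number of bad blocks in `BL A c`, all of dimension ≥ n - g ≥ 2.  CB1, IDIM:
`k (n - g) + |G| ≤ n - 1`.
(1) `{F} ∪ G` independent: `|G| ≤ g`.  If `G ≠ ∅`: `|G| + k ≥ g + 1` (NGC), so `k ≥ 1` and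
`k (n - g) + g + 1 - k ≤ n - 1`, `k (n-g-1) ≤ n - g - 2`, contradiction.  If `G = ∅`: `k ≥ g`, `g (n - g) ≤ n - 1`, i.e.
`(g-1)(n-g-1) ≤ 0`, `g = 1`.
(2) otherwise let `N ⊆ G` be minimal with `{F} ∪ N` dependent; it is a circuit (`G` is independent).
EXC: all dimensions are `d`.  `d ≥ 2`: B1B.  `d = 1`, `|N| ≥ 3`: B1A.  `d = 1`, `|N| = 2`: `n = dim F + 1`: B1N or B1S. -/
def S_B2 : Prop := ∀ (V : Type) [AddCommGroup V] [Module (ZMod 2) V] [Finite V] (e : V)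
  (A : Fam V), CB e A → ∀ F ∈ BB e A, finrank (ZMod 2) F + 1 = finrank (ZMod 2) V

/-- TWO. A linked family with exactly three nonzero members, all of rank ≥ n - 1, `n ≥ 4`: impossible.
Proof.  Members `ω₁, ω₂, ω₃ = ω₁ + ω₂`, kernels of order ≤ 2.  For `i ≠ j`, `k` the third, and
`0 ≠ f = ω_i x = ω_j y`: `x` or `y` is in the kernel of one of the members: if `x = y`, `ω_k x = 0`;
otherwise link, `ζ x = ζ y = f`: `ζ = ω_i`: `ω_i y = f = ω_j y`, `ω_k y = 0`; `ζ = ω_j`: `ω_k x = 0`; `ζ = ω_k`: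
`ω_k x = f = ω_i x`, `ω_j x = 0`.  So every nonzero `f ∈ sp ω_i ⊓ sp ω_j` is one of the at most three
`u_l = ω b_l` (`ker ω_l = {0,b_l}`, `ω ≠ ω_l` any of the other two).  `dim (sp ω_i ⊓ sp ω_j) ≥ n - 2 ≥ 2`.  So `n = 4`,
all three kernels are nonzero, the `u_l` are different, and
`sp ω_i ⊓ sp ω_j = ann b_i ⊓ ann b_j = {0,u₁,u₂,u₃}` for all pairs; hence `⟨b₁,b₂⟩ = ⟨b₁,b₃⟩`, `b₃ = b₁ + b₂`
(the `b_i` are different, otherwise `n - 1 = dim`), `u₃ = ω₁ b₃ = ω₁ b₂ = u₂`, contradiction. -/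
def S_TWO : Prop := ∀ (V : Type) [AddCommGroup V] [Module (ZMod 2) V] [Finite V] (e : V)
  (A : Fam V), EFam e A → Linked A → 4 ≤ finrank (ZMod 2) V → finrank (ZMod 2) A = 2 →
  (∀ ω ∈ A, ω ≠ 0 → finrank (ZMod 2) V ≤ finrank (ZMod 2) (sp ω) + 1) → False

/-- B3E. All blocks are bad hyperplanes: impossible.
Proof.  `D = dim A`.  `ν b = ncard (BL A b) ≤ 1` for `b ≠ 0` (a block killing `b` is `ann b`), `|A_b| = 2^(ν b)` (CB1).
A degenerate nonzero member is `om F` for some block `F`, with kernel of order two; `β` = number of `b ≠ 0` with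
`ν b = 1` (= number of blocks) `≤ 2^D - 1`.  For `f ≠ 0` let `Γ_f = {a : ∃ ω ∈ A, ω a = f}`.  For `a ≠ c ∈ Γ_f`
link: a member `ω_{ac}` with `ω_{ac} a = ω_{ac} c = f`, the nonzero member of `A_{a+c}`.  `|Γ_f| ≤ 3`: if
`a, c, d, g ∈ Γ_f` are different then `ω_{ac} + ω_{ad}` kills `a` and is nonzero (kernels `a+c ≠ a+d`), so it is the nonzero
member of `A_a`, and so is `ω_{ac} + ω_{ag}`; so `ω_{ad} = ω_{ag}`, `d = g`.  Double counting of the pairs
`(a,f)`, `f ≠ 0`, `f ∈ i_a A`: `∑_{a ≠ 0} (2^(D - ν a) - 1) = ∑_{f ≠ 0} |Γ_f| ≤ 3 (2^n - 1)`.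
`D ≥ 4`: left side ≥ 7 (2^n - 1), contradiction.  `D = 3`: left side `7 (2^n-1) - 4β`, `β ≤ 7`: `2^n - 1 ≤ 7`,
contradiction.  `D = 2`: TWO.  `D ≤ 1`: `El` (zero or loc), contradiction. -/
def S_B3E : Prop := ∀ (V : Type) [AddCommGroup V] [Module (ZMod 2) V] [Finite V] (e : V)
  (A : Fam V), CB e A → (∀ X, Block e A X → finrank (ZMod 2) X + 1 = finrank (ZMod 2) V) → False

/-- B3S. One good block, of dimension one, and all other blocks bad hyperplanes (at least one).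
Proof.  `⟨s⟩`, `s e = 1`, `sqf s ∈ A` (OM).  Bad blocks `F = ann b_F` with `s b_F = 1` (BDIS).  `D = dim A`.  For `b ≠ 0`:
`|A_b| = 2^(ν b)`, `ν b ≤ 1`; `ν b = 1` if `s b = 0` (`A_b = {0, sqf s}`) or `ann b` is bad.  Let `β` be the number of
bad blocks, `β ≤ 2^D - 2`.  For `f ≠ 0, s`: `|Γ_f| ≤ 2`: for `a ≠ c ∈ Γ_f` link, the nonzero member of `A_{a+c}` has
value `f ≠ s` so it is not `sqf s`, `ann (a+c)` is bad, `s (a+c) = 1`; three elements are impossible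
(`1 + 1 + 1 ≠ 0`).  `|Γ_s| ≤ 2^(n-1)` (`ω a = s` implies `s a = ω a a = ω a e = s e = 1`).  Double counting:
`∑_{a ≠ 0} (2^(D - ν a) - 1) ≤ 2 (2^n - 2) + 2^(n-1)`.  `D ≥ 4`: left side ≥ 7 (2^n - 1), contradiction.  `D = 3`: left
side `3 (2^(n-1) - 1) + 7 · 2^(n-1) - 4β`, `β ≤ 6`: `5 · 2^(n-1) ≤ 23`, contradiction.  `D = 2`: `A = {0, sqf s, om F, sqf s + om F}` is
the direct sum of two local families with disjoint supports: `El`.  `D ≤ 1`: `El`. -/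
def S_B3S : Prop := ∀ (V : Type) [AddCommGroup V] [Module (ZMod 2) V] [Finite V] (e : V)
  (A : Fam V) (S : DSub V), CB e A → S ∈ GB e A → finrank (ZMod 2) S = 1 → (∃ F, F ∈ BB e A) →
  (∀ X, Block e A X → X ≠ S → X ∈ BB e A ∧ finrank (ZMod 2) X + 1 = finrank (ZMod 2) V) → False

/-- NGF. Case B: no bad blocks.
Proof.  Let `F` be bad.  B2: all bad blocks are hyperplanes; good blocks are disjoint from `F` (BDIS), of
dimension one.  Two good blocks: B1N or B1S.  No good block: B3E.  One good block: B3S. -/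
def S_NGF : Prop := ∀ (V : Type) [AddCommGroup V] [Module (ZMod 2) V] [Finite V] (e : V)
  (A : Fam V), CB e A → ∀ F : DSub V, F ∉ BB e A

/-- AGI. As for `e = 0`. -/
def S_AGI : Prop := ∀ (V : Type) [AddCommGroup V] [Module (ZMod 2) V] [Finite V] (e : V)
  (A : Fam V), CB e A → (∀ X, Block e A X → Good A X) → ¬ sSupIndep {X | Block e A X}

/-- AGB. Case B, all good: basis structure (as for `e = 0`, the dimension `d` of the blocks is only
≥ 1). -/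
def S_AGB : Prop := ∀ (V : Type) [AddCommGroup V] [Module (ZMod 2) V] [Finite V] (e : V)
  (A : Fam V), CB e A → (∀ X, Block e A X → Good A X) → ∃ d p : ℕ, 1 ≤ d ∧ 2 ≤ p ∧
    finrank (ZMod 2) V = d * p ∧ (∀ X, Block e A X → finrank (ZMod 2) X = d) ∧
    p + 1 ≤ {X | Block e A X}.ncard ∧
    ∀ T : Finset (DSub V), (∀ X ∈ T, Block e A X) → T.card = p →
      sSupIndep (T : Set (DSub V)) ∧ sSup (T : Set (DSub V)) = ⊤

/-- AGP. `p` divides the number of blocks (as for `e = 0`). -/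
def S_AGP : Prop := ∀ (V : Type) [AddCommGroup V] [Module (ZMod 2) V] [Finite V] (e : V)
  (A : Fam V) (d p : ℕ), CB e A → (∀ X, Block e A X → Good A X) → 1 ≤ d → 2 ≤ p →
    finrank (ZMod 2) V = d * p → (∀ X, Block e A X → finrank (ZMod 2) X = d) →
    p + 1 ≤ {X | Block e A X}.ncard →
    (∀ T : Finset (DSub V), (∀ X ∈ T, Block e A X) → T.card = p →
      sSupIndep (T : Set (DSub V)) ∧ sSup (T : Set (DSub V)) = ⊤) →
    p ∣ {X | Block e A X}.ncard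

/-- AG1. The blocks do not have dimension one.
Proof.  Blocks are `⟨s⟩` (`s ≠ 0`), any `p = n` different ones form a basis.  Given `n` of them, any further
`s` is a combination with all coefficients nonzero (otherwise some `n` blocks are dependent), so it is
their sum: there are exactly `n + 1 = p + 1` blocks; `p ∣ p + 1`, `p ≥ 2`, contradiction. -/
def S_AG1 : Prop := ∀ (V : Type) [AddCommGroup V] [Module (ZMod 2) V] [Finite V] (e : V)
  (A : Fam V) (p : ℕ), CB e A → 2 ≤ p →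
    finrank (ZMod 2) V = p → (∀ X, Block e A X → finrank (ZMod 2) X = 1) →
    p + 1 ≤ {X | Block e A X}.ncard → p ∣ {X | Block e A X}.ncard →
    (∀ T : Finset (DSub V), (∀ X ∈ T, Block e A X) → T.card = p →
      sSupIndep (T : Set (DSub V)) ∧ sSup (T : Set (DSub V)) = ⊤) → False

/-- AG2. The case `p = 2` (as for `e = 0`; `d ≥ 2` as `n ≥ 4`). -/
def S_AG2 : Prop := ∀ (V : Type) [AddCommGroup V] [Module (ZMod 2) V] [Finite V] (e : V)
  (A : Fam V) (d : ℕ), CB e A → (∀ X, Block e A X → Good A X) → 2 ≤ d →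
    finrank (ZMod 2) V = d * 2 → (∀ X, Block e A X → finrank (ZMod 2) X = d) →
    3 ≤ {X | Block e A X}.ncard → 2 ∣ {X | Block e A X}.ncard →
    (∀ T : Finset (DSub V), (∀ X ∈ T, Block e A X) → T.card = 2 →
      sSupIndep (T : Set (DSub V)) ∧ sSup (T : Set (DSub V)) = ⊤) → False

/-- AG3. The case `p ≥ 3`, `d ≥ 2`.
Proof.  Different blocks `X₁, …, X_{p+1}`, nonzero `x₁ ∈ X₁`, `x₂ ∈ X₂`, `h = x₁ + x₂`,
`ζ = ∑_{i ≠ 2} om X_i` (p blocks, support `⊤`), `ζ a = h`, `a ≠ 0`.  `om X₁ a ≠ x₁`: otherwise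
`x₂ = h + x₁ ∈ ⨁_{i ≠ 1,2} X_i`, but `{X_i : i ≠ 1}` is independent.  `ncard (BL A a) ≤ p - 1` (`p` blocks span).  HH: if
`BL A a = ∅`, `d p ≤ 2 d`, contradiction; otherwise `d p + 1 ≤ 2 d + p - 1`, `(d-1)(p-2) ≤ 0`, contradiction. -/
def S_AG3 : Prop := ∀ (V : Type) [AddCommGroup V] [Module (ZMod 2) V] [Finite V] (e : V)
  (A : Fam V) (d p : ℕ), CB e A → (∀ X, Block e A X → Good A X) → 2 ≤ d → 3 ≤ p →
    finrank (ZMod 2) V = d * p → (∀ X, Block e A X → finrank (ZMod 2) X = d) →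
    p + 1 ≤ {X | Block e A X}.ncard →
    (∀ T : Finset (DSub V), (∀ X ∈ T, Block e A X) → T.card = p →
      sSupIndep (T : Set (DSub V)) ∧ sSup (T : Set (DSub V)) = ⊤) → False

/-- CBF. Case B is impossible: NGF, AGB, AGP, AG1 / AG2 / AG3. -/
def S_CBF : Prop := ∀ (V : Type) [AddCommGroup V] [Module (ZMod 2) V] [Finite V] (e : V)
  (A : Fam V), CB e A → False

/-- N3. No minimal configuration with `n ≤ 3`.
Proof.  RIG: no `x ∉ {0,e}` has `i_x A = ann (x+e)` and `i_{x+e} A = ann x`.  `i_a A ≠ 0` for `a ≠ 0` (`supp A = ⊤`),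
`i_a A ≤ ann (a+e)` of dimension `n - 1` for `a ≠ e`.  `dim A ≥ 2` (otherwise `El`).  `n = 0`: `A = ⊥`.  `n = 1`: forms are `0`
and (if `e ≠ 0`) one square, `dim A ≤ 1`.  `n = 2`: any `x ∉ {0,e}` contradicts RIG.  `n = 3`, `e = 0`: so
`dim i_a A = 1` for all `a ≠ 0`; as in the old N3 (forms are alternating, a nonzero form has a kernel of order
2, `dim A_a ≤ 1`, `dim A ≤ 2`, count).
`n = 3`, `e ≠ 0`: let `s₁,…,s₄` be the elements of the dual with value 1 at `e`; `∑ s_i = 0`, any three are a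
basis; the forms are exactly the sums of squares `∑_{i ∈ S} sqf s_i`, `S ⊆ {1,2,3,4}` (16 forms).  For
`x ∉ {0,e}`: `x` is given by `{i : s_i x = 1} = {i,j}`, `x+e` by the complement `{k,l}`, `A_x ⊆ ⟨sqf s_k, sqf s_l⟩`.  By RIG for each
of the three partitions one side `{k,l}` has `dim (A ⊓ ⟨sqf s_k, sqf s_l⟩) = dim A - 1` (`dim i_x A = 1`).  So `dim A ∈ {2,3}`.
`dim A = 3`: for each partition `sqf s_k, sqf s_l ∈ A` for one side; the sides form a star (then all four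
squares are in `A`, `dim A = 4`, no) or a triangle: `A = ⟨sqf s₁, sqf s₂, sqf s₃⟩` (up to order), `El`.
`dim A = 2`: if a square `sqf s_i ∈ A` then `A = ⟨sqf s_i, ω⟩` where `ω` is a sum of squares of other `s_j`; `ω` one
square: `supp A ≠ ⊤`; two: disjoint supports, `El`; three: add `sqf s_i`: `ω' = ∑ sqf s_j` (all four) kills `e`, support
`ann e ∌ s_i`, `El`.  Otherwise for each partition one side `{k,l}` has `sqf s_k + sqf s_l ∈ A`: three different members,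
so they are `{12},{23},{13}` (up to order; the star is not closed under addition).  Not linked: `a` given by
`{1,2}`, `c` given by `{1,3}`: `(sqf s₁ + sqf s₃) a = s₁ = (sqf s₁ + sqf s₂) c`, but no member has value `s₁` at both. -/
def S_N3 : Prop := ∀ (V : Type) [AddCommGroup V] [Module (ZMod 2) V] [Finite V] (e : V)
  (A : Fam V), MC e A → finrank (ZMod 2) V ≤ 3 → False

/-- MCF. There is no minimal configuration: N3, FWF, CBF. -/
def S_MCF : Prop := ∀ (V : Type) [AddCommGroup V] [Module (ZMod 2) V] [Finite V] (e : V)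
  (A : Fam V), MC e A → False

/-- QUO. Reduction to full support (as for `e = 0`; `e'` = image of `e`). -/
def S_QUO : Prop := ∀ (V : Type) [AddCommGroup V] [Module (ZMod 2) V] [Finite V] (e : V)
  (A : Fam V), EFam e A → Hered A → supp A ≠ ⊤ →
  ∃ (V' : Type) (_ : AddCommGroup V') (_ : Module (ZMod 2) V') (_ : Finite V') (e' : V')
    (A' : Fam V'),
    finrank (ZMod 2) V' < finrank (ZMod 2) V ∧ EFam e' A' ∧ Hered A' ∧ (El e' A' → El e A)

/-- CORE. Hereditarily linked families are of elementary type. -/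
def S_CORE : Prop := ∀ (V : Type) [AddCommGroup V] [Module (ZMod 2) V] [Finite V] (e : V)
  (A : Fam V), EFam e A → Hered A → El e A

/-! ### quaternionic structures -/

section
open Pool.Agent.H315R3.ETC

/-- BRI. From quaternionic structures in which symbols extend to families.
Proof.  As for `-1 = 1`: `V = Additive S.G`, `e = -1`, `A` = set of bilinear forms `ω` with `ω(a,b) = 0` whenever
`q(a,b) = 0`.  `q(a,-a) = 0` gives `ω(a,a+e) = 0`, i.e. `ω(a,a) = ω(a,e)`; applied to `a`, `b`, `a+b` it gives symmetry. -/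
def S_BRI : Prop := ∀ S : QData, IsQuat S → Finite S.G → MX S →
  ∃ (V : Type) (_ : AddCommGroup V) (_ : Module (ZMod 2) V) (_ : Finite V) (e : V) (A : Fam V),
    EFam e A ∧ Hered A ∧ Iso (QD e A) S

/-- BRO. Families of elementary type give structures of elementary type.
Proof.  As for `-1 = 1`, with: `zero`: `QD e ⊥` is a product of `L10`s and, if `e ≠ 0`, one `L11`.  `loc ω`: split off the
radical (`e = (e'', e_N)`), on `V''` nondegenerate: dimension 0: `L0`; dimension 1: `ω = sqf s`, `s e'' = 1`: `L1`; dimension 2: `ext L10`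
(`e'' = 0`) or `ext L11` (`e'' ≠ 0`; the unique nondegenerate form is `(i,α),(j,β) ↦ αβ + iβ + αj`, `e'' = (1,0)`);
dimension ≥ 3: `IsLocal`.  `prod`: `e = (e₁,e₂)`.  `cone A p Y`: `p e = 0`;
`wd e p g (a + αx, b + βx) = α g(b) + β g(a) + αβ g(e)` matches `(-1)^(αβ) a^β b^α`. -/
def S_BRO : Prop := ∀ (V : Type) [AddCommGroup V] [Module (ZMod 2) V] [Finite V] (e : V)
  (A : Fam V), El e A → Elem (QD e A)

/-- CONV. In structures of elementary type symbols extend.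
Proof: as for `-1 = 1` (induction on `Elem`, carrying `IsQuat` or the few axioms needed).  New: `l11`, `l1` (trivial: on
`W = ⊤` nothing to do, on `W = ⊥` the zero symbol); `loc`: `q(a,b) = 0 ↔ ω(a,b) = 0` for a nondegenerate symmetric
bilinear `ω`, same argument; `ext`: on `W₀ = W ∩ (G × 1)`: `χ(w,(z,ξ)) = ω(w,z) + ξ g(w)`, extension
`ω(a,b) + α g(b) + β g(a) + αβ g(-1)`; if `w₀ = (a₀,x) ∈ W`: after subtracting, `χ` kills `W₀` and `f = χ(w₀,·)` satisfies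
`f(-w₀) = 0` and `f(-w₀w) = 0` (`q_x(w₀w, -w₀w) = 0`), so `f = 0` on `W₀`; with `p` the second coordinate, the extension is
`p(u) f(v) + f(u) p(v) + f(-1) p(u) p(v)`. -/
def S_CONV : Prop := ∀ S : QData, IsQuat S → Elem S → MX S

end

end Pool.Agent.W622.ETG
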