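import Pool.Agent.W622.ETG.Stm

set_option autoImplicit false

namespace Pool.Agent.W622.ETG

open Module

theorem t_CBF (hNGF : S_NGF) (hAGB : S_AGB) (hAGP : S_AGP) (hAG1 : S_AG1) (hAG2 : S_AG2)
    (hAG3 : S_AG3) : S_CBF := by
  intro V _ _ _ e A hA
  have hgood : ∀ X, Block e A X → Good A X := by
    intro X hX
    by_contra h
    exact hNGF V e A hA X ⟨hX, h⟩
  obtain ⟨d, p, hd, hp, hn, hdim, hcard, hT⟩ := hAGB V e A hA hgood
  have hdvd := hAGP V e A d p hA hgood hd hp hn hdim hcard hT
  have h4 := hA.four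
  rcases Nat.lt_or_ge d 2 with h1 | h2
  · have : d = 1 := by omega
    subst this
    exact hAG1 V e A p hA hp (by omega) hdim hcard hdvd hT
  · rcases Nat.lt_or_ge p 3 with h | h
    · have : p = 2 := by omega
      subst this
      exact hAG2 V e A d hA hgood h2 hn hdim hcard hdvd hT
    · exact hAG3 V e A d p hA hgood h2 h hn hdim hcard hT

theorem t_MCF (hN3 : S_N3) (hFWF : S_FWF) (hCBF : S_CBF) : S_MCF := by
  intro V _ _ _ e A hA
  rcases Nat.lt_or_ge 3 (finrank (ZMod 2) V) with h4 | h3
  · by_cases hc : ∃ Z : DSub V, IsCone e A Z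
    · exact hFWF V e A ⟨hA, h4, hc⟩
    · push Not at hc
      exact hCBF V e A ⟨hA, h4, hc⟩
  · exact hN3 V e A hA h3

theorem t_CORE (hQUO : S_QUO) (hMCF : S_MCF) : S_CORE := by
  have key : ∀ n : ℕ, ∀ (V : Type) [AddCommGroup V] [Module (ZMod 2) V] [Finite V] (e : V)
      (A : Fam V), finrank (ZMod 2) V = n → EFam e A → Hered A → El e A := by
    intro n
    induction n using Nat.strong_induction_on with
    | _ n ih =>
      intro V _ _ _ e A hn hA hH
      have hsub : ∀ B : Fam V, EFam e B → Hered B → supp B ≠ ⊤ → El e B := by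
        intro B hB hBH hs
        obtain ⟨V', i1, i2, i3, e', A', h1, h2, h3, h4⟩ := hQUO V e B hB hBH hs
        exact h4 (ih (finrank (ZMod 2) V') (hn ▸ h1) V' e' A' rfl h2 h3)
      by_contra hnel
      have htop : supp A = ⊤ := by
        by_contra h
        exact hnel (hsub A hA hH h)
      refine hMCF V e A ⟨hA, hH, htop, ?_, hnel⟩
      intro X hX
      refine hsub _ (hA.res X) (hH.res X) ?_
      intro h
      exact hX (eq_top_iff.mpr (h ▸ supp_res_le A X))
  intro V _ _ _ e A hA hH
  exact key _ V e A rfl hA hH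

end Pool.Agent.W622.ETG
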