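import Pool.Agent.W622.ETG.Defs

set_option autoImplicit false
set_option linter.unusedSectionVars false

namespace Pool.Agent.W622.ETG

open Module

universe u

section
variable {V : Type u} [AddCommGroup V] [Module (ZMod 2) V] {e : V}

theorem wd_apply (p g : Dl V) (a : V) :
    wd e p g a = p a • g + g a • p + (g e * p a) • p := by
  ext b
  simp only [wd, LinearMap.coe_mk, AddHom.coe_mk, LinearMap.add_apply, LinearMap.smulRight_apply,
    LinearMap.smul_apply, smul_eq_mul]
  ring

theorem wd_apply' (p g : Dl V) (a b : V) :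
    wd e p g a b = p a * g b + g a * p b + g e * p a * p b := by
  rw [wd_apply]
  simp only [LinearMap.add_apply, LinearMap.smul_apply, smul_eq_mul]

theorem wd_ef {p : Dl V} (hp : p e = 0) (g : Dl V) : EF e (wd e p g) := by
  constructor
  · intro a b
    simp only [wd_apply']; ring
  · intro a
    simp only [wd_apply', hp]
    have h := zadd (p a * g a)
    rcases z01 (p a) with h1 | h1 <;> rcases z01 (g a) with h2 | h2 <;>
      rcases z01 (g e) with h3 | h3 <;> rw [h1, h2, h3] <;> decide

theorem wd_self {p : Dl V} (hp : p e = 0) : wd e p p = 0 := by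
  ext a b
  rw [wd_apply', hp]
  have h := zadd (p a * p b)
  rw [h]; simp

/-- for `p e = 0`, `p a = 1`, `f a = f e` the value of `wd e p f` at `a` is `f` -/
theorem wd_val_one {p f : Dl V} {a : V} (ha : p a = 1) (hf : f a = f e) : wd e p f a = f := by
  rw [wd_apply, ha, hf, one_smul, mul_one, add_assoc, vadd, add_zero]

/-- if `p a = 0` the value of `wd e p g` at `a` is `g(a) p` -/
theorem wd_val_zero {p g : Dl V} {a : V} (ha : p a = 0) : wd e p g a = g a • p := by
  rw [wd_apply, ha, zero_smul, mul_zero, zero_smul, zero_add, add_zero]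

/-- if `p a = 1` the value of `wd e p g` at `a` is `g + (g(a) + g(e)) p` -/
theorem wd_val_one' {p g : Dl V} {a : V} (ha : p a = 1) :
    wd e p g a = g + (g a + g e) • p := by
  rw [wd_apply, ha, one_smul, mul_one, add_smul, add_assoc]

theorem wd_e {p g : Dl V} (hp : p e = 0) : wd e p g e = g e • p := wd_val_zero hp

theorem wd_add_self {p : Dl V} (hp : p e = 0) (g : Dl V) : wd e p (g + p) = wd e p g := by
  rw [map_add, wd_self hp, add_zero]

theorem EF.zero : EF e (0 : Frm V) := ⟨fun _ _ => rfl, fun _ => rfl⟩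

theorem EF.add {ω η : Frm V} (h : EF e ω) (h' : EF e η) : EF e (ω + η) := by
  constructor
  · intro a b
    rw [LinearMap.add_apply, LinearMap.add_apply, LinearMap.add_apply, LinearMap.add_apply,
      h.symm a b, h'.symm a b]
  · intro a
    rw [LinearMap.add_apply, LinearMap.add_apply, LinearMap.add_apply, h.sq a, h'.sq a]

theorem EF.sum {ι : Type*} (s : Finset ι) (ω : ι → Frm V) (h : ∀ i ∈ s, EF e (ω i)) :
    EF e (∑ i ∈ s, ω i) := by
  classical
  induction s using Finset.induction_on with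
  | empty => rw [Finset.sum_empty]; exact EF.zero
  | insert i s hi ih =>
    rw [Finset.sum_insert hi]
    exact (h i (Finset.mem_insert_self i s)).add
      (ih fun j hj => h j (Finset.mem_insert_of_mem hj))

/-- `ω(a, a + e) = 0` -/
theorem EF.self_e {ω : Frm V} (h : EF e ω) (a : V) : ω a (a + e) = 0 := by
  rw [map_add, h.sq a, zadd]

/-- `ω a` is in the annihilator of `a + e` -/
theorem EF.self_mem_ann {ω : Frm V} (h : EF e ω) (a : V) : ω a ∈ ann (a + e) := h.self_e a

theorem EF.e_apply {ω : Frm V} (h : EF e ω) (a : V) : ω e a = ω a a := by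
  rw [h.symm e a, h.sq a]

/-- members killing `e` are alternating -/
theorem EF.alt {ω : Frm V} (h : EF e ω) (he : ω e = 0) : Pool.Agent.W622.ETC.Alt ω := by
  intro a
  rw [← h.e_apply, he]; rfl

theorem EF.mem_ann {ω : Frm V} (h : EF e ω) {b : V} (hb : ω b = 0) (a : V) : ω a ∈ ann b := by
  rw [ETG.mem_ann, h.symm, hb]; rfl

theorem mem_res_ann {A : Fam V} (hA : EFam e A) {b : V} {ω : Frm V} :
    ω ∈ res A (ann b) ↔ ω ∈ A ∧ ω b = 0 := by
  constructor
  · rintro ⟨h, h'⟩
    refine ⟨h, LinearMap.ext fun a => ?_⟩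
    rw [(hA ω h).symm]
    exact h' a
  · rintro ⟨h, h'⟩
    exact ⟨h, fun a => (hA ω h).mem_ann h' a⟩

theorem EFam.res {A : Fam V} (hA : EFam e A) (X : DSub V) : EFam e (res A X) :=
  fun ω h => hA ω h.1

theorem sp_wd_le (p g : Dl V) : sp (wd e p g) ≤ Submodule.span (ZMod 2) {p, g} := by
  rintro _ ⟨a, rfl⟩
  rw [wd_apply]
  exact Submodule.add_mem _ (Submodule.add_mem _
    (Submodule.smul_mem _ _ (Submodule.subset_span (by simp)))
    (Submodule.smul_mem _ _ (Submodule.subset_span (by simp))))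
    (Submodule.smul_mem _ _ (Submodule.subset_span (by simp)))

/-! ### squares -/

theorem sqf_apply (s : Dl V) (a : V) : sqf s a = s a • s := rfl

theorem sqf_apply' (s : Dl V) (a b : V) : sqf s a b = s a * s b := rfl

theorem sqf_ef {s : Dl V} (hs : s e = 1) : EF e (sqf s) := by
  constructor
  · intro a b
    rw [sqf_apply', sqf_apply', mul_comm]
  · intro a
    rw [sqf_apply', sqf_apply', hs]
    rcases z01 (s a) with h | h <;> rw [h] <;> decide

theorem sqf_ne_zero {s : Dl V} (hs : s ≠ 0) : sqf s ≠ 0 := by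
  intro h
  have h1 : ∃ a, s a = 1 := by
    by_contra hc
    push Not at hc
    exact hs (LinearMap.ext fun a => z_ne' (hc a))
  obtain ⟨a, ha⟩ := h1
  have h2 : sqf s a a = 1 := by rw [sqf_apply', ha]; decide
  rw [h] at h2
  simp at h2

theorem sp_sqf {s : Dl V} (hs : s ≠ 0) : sp (sqf s) = Submodule.span (ZMod 2) {s} := by
  apply le_antisymm
  · rintro _ ⟨a, rfl⟩
    rw [sqf_apply]
    exact Submodule.smul_mem _ _ (Submodule.mem_span_singleton_self s)
  · rw [Submodule.span_singleton_le_iff_mem]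
    have h1 : ∃ a, s a = 1 := by
      by_contra hc
      push Not at hc
      exact hs (LinearMap.ext fun a => z_ne' (hc a))
    obtain ⟨a, ha⟩ := h1
    exact ⟨a, by rw [sqf_apply, ha, one_smul]⟩

/-- a form of rank one is a square `s ⊗ s` with `s(e) = 1` -/
theorem EF.eq_sqf {ω : Frm V} (h : EF e ω) {s : Dl V} (hs : sp ω ≤ Submodule.span (ZMod 2) {s})
    (h0 : ω ≠ 0) : ω = sqf s ∧ s e = 1 := by
  have hv : ∀ a, ω a = 0 ∨ ω a = s := fun a => span_one_mem.mp (hs ⟨a, rfl⟩)
  obtain ⟨a0, ha0⟩ : ∃ a, ω a ≠ 0 := by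
    by_contra hc
    push Not at hc
    exact h0 (LinearMap.ext hc)
  have ha1 : ω a0 = s := (hv a0).resolve_left ha0
  -- `ω b ≠ 0` iff `s b = 1`
  have key : ∀ b, ω b = s b • s := by
    intro b
    rcases hv b with hb | hb
    · have : s b = 0 := by rw [← ha1, h.symm, hb]; rfl
      rw [hb, this, zero_smul]
    · rcases z01 (s b) with h1 | h1
      · exfalso
        -- `ω a0 b = 0`, so `ω b a0 = s a0 = 0`; then `s = 0`
        have h2 : s a0 = 0 := by
          have : ω b a0 = 0 := by rw [h.symm, ha1, h1]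
          rwa [hb] at this
        have h3 : ∀ c, s c = 0 := by
          intro c
          rcases hv c with hc | hc
          · rw [← ha1, h.symm, hc]; rfl
          · rw [← ha1, h.symm, hc, h2]
        exact ha0 (by rw [ha1]; exact LinearMap.ext h3)
      · rw [hb, h1, one_smul]
  have hsq : ω = sqf s := LinearMap.ext fun b => by rw [key b, sqf_apply]
  refine ⟨hsq, ?_⟩
  have h1 : ∃ a, s a = 1 := by
    by_contra hc
    push Not at hc
    exact ha0 (by rw [ha1]; exact LinearMap.ext fun a => z_ne' (hc a))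
  obtain ⟨a, ha⟩ := h1
  have h2 := h.sq a
  rw [hsq, sqf_apply', sqf_apply', ha] at h2
  rcases z01 (s e) with h3 | h3
  · rw [h3] at h2; exact absurd h2 (by decide)
  · exact h3

/-- if `p ≠ 0`, `p e = 0` and `g ∉ ⟨p⟩` the support of `wd e p g` is `⟨p,g⟩` -/
theorem sp_wd {p g : Dl V} (hp0 : p ≠ 0) (hg : g ≠ 0) (hgp : g ≠ p) :
    sp (wd e p g) = Submodule.span (ZMod 2) {p, g} := by
  apply le_antisymm (sp_wd_le p g)
  -- find `a` with `p a = 0`, `g a = 1`
  have h1 : ∃ a, p a = 0 ∧ g a = 1 := by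
    by_contra hc
    push Not at hc
    -- `p a = 0 → g a = 0`, so `g ∈ {0, p}`
    have hc' : ∀ a, p a = 0 → g a = 0 := fun a ha => z_ne' (hc a ha)
    obtain ⟨a0, ha0⟩ : ∃ a, p a = 1 := by
      by_contra h
      push Not at h
      exact hp0 (LinearMap.ext fun a => z_ne' (h a))
    rcases z01 (g a0) with h2 | h2
    · apply hg
      refine LinearMap.ext fun a => ?_
      rcases z01 (p a) with h3 | h3
      · exact hc' a h3
      · have : g (a + a0) = 0 := hc' _ (by rw [map_add, h3, ha0, zadd])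
        rw [map_add, h2, add_zero] at this
        exact this
    · apply hgp
      refine LinearMap.ext fun a => ?_
      rcases z01 (p a) with h3 | h3
      · rw [h3]; exact hc' a h3
      · have : g (a + a0) = 0 := hc' _ (by rw [map_add, h3, ha0, zadd])
        rw [map_add, h2] at this
        rw [h3]
        exact add_eq_zero'.mp this
  obtain ⟨a, ha0, ha1⟩ := h1
  have hp : p ∈ sp (wd e p g) := ⟨a, by rw [wd_val_zero ha0, ha1, one_smul]⟩
  obtain ⟨a1, ha2⟩ : ∃ a, p a = 1 := by
    by_contra h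
    push Not at h
    exact hp0 (LinearMap.ext fun a => z_ne' (h a))
  have hg' : g ∈ sp (wd e p g) := by
    have h2 : wd e p g a1 ∈ sp (wd e p g) := ⟨a1, rfl⟩
    rw [wd_val_one' ha2] at h2
    have h3 := Submodule.sub_mem _ h2 (Submodule.smul_mem _ (g a1 + g e) hp)
    rwa [add_sub_cancel_right] at h3
  rw [Submodule.span_le]
  intro x hx
  simp only [Set.mem_insert_iff, Set.mem_singleton_iff] at hx
  rcases hx with rfl | rfl
  · exact hp
  · exact hg'

end

section
variable {V : Type u} [AddCommGroup V] [Module (ZMod 2) V] [Finite V] {e : V}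

/-- the support is the annihilator of the radical -/
theorem EF.mem_sp_iff {ω : Frm V} (h : EF e ω) {f : Dl V} :
    f ∈ sp ω ↔ ∀ b : V, ω b = 0 → f b = 0 := by
  constructor
  · rintro ⟨a, rfl⟩ b hb
    rw [h.symm, hb]; rfl
  · intro hf
    refine mem_of_coann fun b hb => hf b ?_
    refine LinearMap.ext fun a => ?_
    rw [h.symm]
    exact hb (ω a) ⟨a, rfl⟩

theorem EF.ker_iff {ω : Frm V} (h : EF e ω) {b : V} : ω b = 0 ↔ ∀ f ∈ sp ω, f b = 0 := by
  constructor
  · intro hb f hf
    exact (h.mem_sp_iff.mp hf) b hb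
  · intro hf
    refine LinearMap.ext fun a => ?_
    rw [h.symm]
    exact hf (ω a) ⟨a, rfl⟩

theorem EF.ker_iff_ann {ω : Frm V} (h : EF e ω) {b : V} : ω b = 0 ↔ sp ω ≤ ann b := h.ker_iff

/-- supports of a sum with disjoint supports -/
theorem sp_add {α β : Frm V} (hα : EF e α) (hβ : EF e β) (h : Disjoint (sp α) (sp β)) :
    sp (α + β) = sp α ⊔ sp β := by
  refine le_antisymm (sp_add_le α β) ?_
  refine sup_le ?_ ?_
  · intro f hf
    rw [(hα.add hβ).mem_sp_iff]
    intro b hb
    exact hα.mem_sp_iff.mp hf b ((add_ker le_rfl le_rfl h).mp hb).1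
  · intro f hf
    rw [(hα.add hβ).mem_sp_iff]
    intro b hb
    exact hβ.mem_sp_iff.mp hf b ((add_ker le_rfl le_rfl h).mp hb).2

end

end Pool.Agent.W622.ETG
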