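import Pool.Agent.W622.ETC.Basic

set_option autoImplicit false
set_option linter.unusedSectionVars false

/-!
Linear families of symmetric forms `ω` over `F_2` with `ω(a,a) = ω(a,e)` for a fixed vector `e`
(the general case of `Pool.Agent.W622.ETC`, which is the case `e = 0`).
`V` is a finite `F_2`-vector space, `Dl V` its dual, a form is a linear map `V → Dl V`.
-/

namespace Pool.Agent.W622.ETG

open Module

universe u

/- notions and lemmas which do not depend on `e` are those of `Pool.Agent.W622.ETC` -/
export Pool.Agent.W622.ETC (Dl Frm DSub Fam sp res ann supp Linked Hered Prim Good IsPr Symb MX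
  zadd vadd add_eq_zero' add_cancel' add_cancel_left' z01 z_ne z_ne' mem_res mem_res' mem_ann
  mem_sp res_le res_mono res_mono_left res_res res_res_of_le res_top res_bot supp_le sp_le_supp
  supp_res_le supp_mono sp_le sp_zero sp_eq_bot sp_add_le ann_ne_top exists_ne_one span_pair_mem
  span_one_mem mem_of_coann exists_coann exists_ann exists_val exists_glue add_ker
  finrank_sp_add_ker finrank_Dl finrank_ann)

section
variable {V : Type u} [AddCommGroup V] [Module (ZMod 2) V]

/-- symmetric forms with `ω(a,a) = ω(a,e)` -/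
structure EF (e : V) (ω : Frm V) : Prop where
  symm : ∀ a b : V, ω a b = ω b a
  sq : ∀ a : V, ω a a = ω a e

/-- all members are such forms -/
def EFam (e : V) (A : Fam V) : Prop := ∀ ω ∈ A, EF e ω

/-- the square `s ⊗ s : a ↦ s(a) s` -/
def sqf (s : Dl V) : Frm V := s.smulRight s

/-- `p ⊗ g + g ⊗ p + g(e) p ⊗ p`, linear in `g` -/
def wd (e : V) (p : Dl V) : Dl V →ₗ[ZMod 2] Frm V where
  toFun g := p.smulRight g + g.smulRight p + g e • p.smulRight p
  map_add' := by
    intro g h; ext a b
    simp only [LinearMap.add_apply, LinearMap.smulRight_apply, LinearMap.smul_apply, smul_eq_mul]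
    ring
  map_smul' := by
    intro c g; ext a b
    simp only [LinearMap.add_apply, LinearMap.smulRight_apply, LinearMap.smul_apply, smul_eq_mul,
      RingHom.id_apply]
    ring

/-- locally in `A` implies in `A` -/
def LU (e : V) (A : Fam V) : Prop :=
  ∀ ζ : Frm V, EF e ζ → (∀ a : V, ∃ ω ∈ A, ω a = ζ a) → ζ ∈ A

/-- families of elementary type -/
inductive El (e : V) : Fam V → Prop
  | zero : El e ⊥
  | loc (ω : Frm V) : EF e ω → El e (Submodule.span (ZMod 2) {ω})
  | prod (A B : Fam V) : El e A → El e B → Disjoint (supp A) (supp B) → El e (A ⊔ B)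
  | cone (A : Fam V) (p : Dl V) (Y : DSub V) : El e A → supp A ≤ Y → p ∉ Y → p e = 0 →
      El e (A ⊔ Submodule.map (wd e p) Y)

/-- minimal configuration: every proper `A[X]` is of elementary type but `A` is not -/
structure MC (e : V) (A : Fam V) : Prop where
  ef : EFam e A
  her : Hered A
  top : supp A = ⊤
  el : ∀ X : DSub V, X ≠ ⊤ → El e (res A X)
  nel : ¬ El e A

/-- `X` is a cone of `A` with apex `p` -/
def Cone (e : V) (A : Fam V) (X : DSub V) (p : Dl V) : Prop :=
  3 ≤ finrank (ZMod 2) X ∧ p ∈ X ∧ p ≠ 0 ∧ p e = 0 ∧ ∀ g ∈ X, wd e p g ∈ A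

/-- `X` is a cone of `A` -/
def IsCone (e : V) (A : Fam V) (X : DSub V) : Prop := ∃ p : Dl V, Cone e A X p

/-- maximal cones -/
def MaxCone (e : V) (A : Fam V) (X : DSub V) : Prop :=
  IsCone e A X ∧ ∀ Y : DSub V, IsCone e A Y → X ≤ Y → Y = X

/-- local blocks with their form -/
def LocForm (e : V) (A : Fam V) (F : DSub V) (ω : Frm V) : Prop :=
  Prim A ω ∧ F = sp ω ∧ ∀ Z : DSub V, IsCone e A Z → ¬ F ≤ Z

/-- local blocks -/
def LocBlock (e : V) (A : Fam V) (F : DSub V) : Prop := ∃ ω : Frm V, LocForm e A F ω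

/-- blocks -/
def Block (e : V) (A : Fam V) (X : DSub V) : Prop := MaxCone e A X ∨ LocBlock e A X

/-- good blocks -/
def GB (e : V) (A : Fam V) : Set (DSub V) := {X | Block e A X ∧ Good A X}

/-- bad (non-good) blocks -/
def BB (e : V) (A : Fam V) : Set (DSub V) := {X | Block e A X ∧ ¬ Good A X}

/-- normal form of a family of elementary type: an independent set of components -/
def Comps (e : V) (A : Fam V) (s : Set (DSub V)) : Prop :=
  sSupIndep s ∧ A = ⨆ X ∈ s, res A X ∧
    ∀ X ∈ s, (∃ ω, Prim A ω ∧ X = sp ω) ∨ IsCone e A X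

open Classical in
/-- the form of a local block -/
noncomputable def om (e : V) (A : Fam V) (F : DSub V) : Frm V :=
  if h : ∃ ω, LocForm e A F ω then h.choose else 0

/-- the sum of the good blocks -/
def PP (e : V) (A : Fam V) : DSub V := sSup (GB e A)

/-- blocks killed by `b` -/
def BL (e : V) (A : Fam V) (b : V) : Set (DSub V) := {F | Block e A F ∧ F ≤ ann b}

/-- bad blocks killed by `b` -/
def BBL (e : V) (A : Fam V) (b : V) : Set (DSub V) := {F | F ∈ BB e A ∧ F ≤ ann b}

/-- case A: there is a cone -/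
structure FW (e : V) (A : Fam V) : Prop where
  mc : MC e A
  four : 4 ≤ finrank (ZMod 2) V
  cone : ∃ Z : DSub V, IsCone e A Z

/-- case B: there are no cones -/
structure CB (e : V) (A : Fam V) : Prop where
  mc : MC e A
  four : 4 ≤ finrank (ZMod 2) V
  nc : ∀ Z : DSub V, ¬ IsCone e A Z

end

section
open Pool.Agent.H315R3.ETC

/-- the quaternionic data `(V, -1 = e, q(a,b) = (ω(a,b))_ω)` of a family of forms -/
def QD {V : Type} [AddCommGroup V] [Module (ZMod 2) V] (e : V) (A : Fam V) : QData where
  G := Multiplicative V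
  Q := A → ZMod 2
  neg := Multiplicative.ofAdd e
  q := fun a b ω => ω.1 a.toAdd b.toAdd
  zero := fun _ => 0

end

end Pool.Agent.W622.ETG
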