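import Pool.Agent.W622.ETG.Stm
import Pool.Agent.W930.ELT.EVEN
import Pool.Agent.W108.ELT.GLUE
import Pool.Agent.W481.ELT.IDIM

set_option autoImplicit false

namespace Pool.Agent.W622.ETG

open Module

/-- members killing `e` have even rank -/
theorem EF.even {V : Type} [AddCommGroup V] [Module (ZMod 2) V] [Finite V] {e : V} {ω : Frm V}
    (h : EF e ω) (he : ω e = 0) : Even (finrank (ZMod 2) (sp ω)) :=
  Pool.Agent.W930.ELT.t_EVEN V ω (h.alt he)

/-- an element of `V` can be prescribed on an independent set of subspaces of the dual -/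
theorem glue {V : Type} [AddCommGroup V] [Module (ZMod 2) V] [Finite V]
    (s : Set (DSub V)) (α : DSub V → V) (h : sSupIndep s) :
    ∃ a : V, ∀ X ∈ s, ∀ f ∈ X, f a = f (α X) :=
  Pool.Agent.W108.ELT.t_GLUE V s α h

/-- dimension of the sum of an independent set of subspaces of the dual -/
theorem idim {V : Type} [AddCommGroup V] [Module (ZMod 2) V] [Finite V]
    (s : Finset (DSub V)) (h : sSupIndep (s : Set (DSub V))) :
    finrank (ZMod 2) (sSup (s : Set (DSub V)) : DSub V) = ∑ X ∈ s, finrank (ZMod 2) X :=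
  Pool.Agent.W481.ELT.t_IDIM V s h

end Pool.Agent.W622.ETG
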