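import Pool.Agent.W622.ETG.Asm
import Pool.Agent.W622.ETG.Lin
import Pool.Agent.W125.ELG.BDIS
import Pool.Agent.W140.ELG.N3
import Pool.Agent.W15.ELG.CB1
import Pool.Agent.W150.ELG.RIG
import Pool.Agent.W160.ELG.OM
import Pool.Agent.W168.ELG.AGI
import Pool.Agent.W19.ELG.LU
import Pool.Agent.W196.ELG.STAR
import Pool.Agent.W240.ELG.COMP
import Pool.Agent.W284.ELG.NG
import Pool.Agent.W290.ELG.EXC
import Pool.Agent.W303.ELG.B1N
import Pool.Agent.W304.ELG.FIND
import Pool.Agent.W320.ELG.PL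
import Pool.Agent.W33.ELG.NF
import Pool.Agent.W347.ELG.RIG1
import Pool.Agent.W358.ELG.AGB
import Pool.Agent.W366.ELG.A4
import Pool.Agent.W376.ELG.QUO
import Pool.Agent.W378.ELG.B1B
import Pool.Agent.W382.ELG.CONV
import Pool.Agent.W392.ELG.B1A
import Pool.Agent.W403.ELG.C1A
import Pool.Agent.W459.ELG.MCD
import Pool.Agent.W461.ELG.B3E
import Pool.Agent.W465.ELG.BRI
import Pool.Agent.W494.ELG.DEC
import Pool.Agent.W499.ELG.FUNI
import Pool.Agent.W509.ELG.AG3
import Pool.Agent.W509.ELG.BEV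
import Pool.Agent.W509.ELG.TWO
import Pool.Agent.W554.ELG.MCE
import Pool.Agent.W563.ELG.AG1
import Pool.Agent.W585.ELG.HH
import Pool.Agent.W589.ELG.ST0
import Pool.Agent.W597.ELG.ES1
import Pool.Agent.W605.ELG.ELI
import Pool.Agent.W61.ELG.A3
import Pool.Agent.W637.ELG.MCL
import Pool.Agent.W638.ELG.C2
import Pool.Agent.W67.ELG.B1S
import Pool.Agent.W688.ELG.A1
import Pool.Agent.W688.ELG.CFULL
import Pool.Agent.W699.ELG.BLK
import Pool.Agent.W723.ELG.ES2
import Pool.Agent.W724.ELG.C1B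
import Pool.Agent.W750.ELG.MD
import Pool.Agent.W762.ELG.FULL
import Pool.Agent.W764.ELG.BRO
import Pool.Agent.W790.ELG.BFULL
import Pool.Agent.W793.ELG.B1P
import Pool.Agent.W800.ELG.B1H
import Pool.Agent.W800.ELG.BNT
import Pool.Agent.W800.ELG.NGC
import Pool.Agent.W804.ELG.B2
import Pool.Agent.W806.ELG.ADD
import Pool.Agent.W816.ELG.B1R
import Pool.Agent.W826.ELG.AG2
import Pool.Agent.W826.ELG.AGP
import Pool.Agent.W853.ELG.FWF
import Pool.Agent.W858.ELG.B3S
import Pool.Agent.W89.ELG.CSP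
import Pool.Agent.W91.ELG.L2
import Pool.Agent.W917.ELG.F5
import Pool.Agent.W919.ELG.NGF
import Pool.Agent.W923.ELG.SPLIT
import Pool.Agent.W930.ELG.FDEC

set_option autoImplicit false

namespace Pool.Agent.W622.ETG

theorem all_parts  : S_CORE ∧ S_PL ∧ S_BRO ∧ S_CONV := by
  have oEVEN : Pool.Agent.W622.ETC.S_EVEN := Pool.Agent.W930.ELT.t_EVEN
  have oGLUE : Pool.Agent.W622.ETC.S_GLUE := Pool.Agent.W108.ELT.t_GLUE
  have oIDIM : Pool.Agent.W622.ETC.S_IDIM := Pool.Agent.W481.ELT.t_IDIM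
  have pLU : S_LU := by first | exact Pool.Agent.W19.ELG.t_LU | (apply Pool.Agent.W19.ELG.t_LU <;> assumption)
  have pPL : S_PL := by first | exact Pool.Agent.W320.ELG.t_PL | (apply Pool.Agent.W320.ELG.t_PL <;> assumption)
  have pRIG1 : S_RIG1 := by first | exact Pool.Agent.W347.ELG.t_RIG1 | (apply Pool.Agent.W347.ELG.t_RIG1 <;> assumption)
  have pRIG : S_RIG := by first | exact Pool.Agent.W150.ELG.t_RIG | (apply Pool.Agent.W150.ELG.t_RIG <;> assumption)
  have pNF : S_NF := by first | exact Pool.Agent.W33.ELG.t_NF | (apply Pool.Agent.W33.ELG.t_NF <;> assumption)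
  have pSPLIT : S_SPLIT := by first | exact Pool.Agent.W923.ELG.t_SPLIT | (apply Pool.Agent.W923.ELG.t_SPLIT <;> assumption)
  have pES1 : S_ES1 := by first | exact Pool.Agent.W597.ELG.t_ES1 | (apply Pool.Agent.W597.ELG.t_ES1 <;> assumption)
  have pES2 : S_ES2 := by first | exact Pool.Agent.W723.ELG.t_ES2 | (apply Pool.Agent.W723.ELG.t_ES2 <;> assumption)
  have pCFULL : S_CFULL := by first | exact Pool.Agent.W688.ELG.t_CFULL | (apply Pool.Agent.W688.ELG.t_CFULL <;> assumption)
  have pFULL : S_FULL := by first | exact Pool.Agent.W762.ELG.t_FULL | (apply Pool.Agent.W762.ELG.t_FULL <;> assumption)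
  have pBFULL : S_BFULL := by first | exact Pool.Agent.W790.ELG.t_BFULL | (apply Pool.Agent.W790.ELG.t_BFULL <;> assumption)
  have pST0 : S_ST0 := by first | exact Pool.Agent.W589.ELG.t_ST0 | (apply Pool.Agent.W589.ELG.t_ST0 <;> assumption)
  have pA1 : S_A1 := by first | exact Pool.Agent.W688.ELG.t_A1 | (apply Pool.Agent.W688.ELG.t_A1 <;> assumption)
  have pBNT : S_BNT := by first | exact Pool.Agent.W800.ELG.t_BNT | (apply Pool.Agent.W800.ELG.t_BNT <;> assumption)
  have pBLK : S_BLK := by first | exact Pool.Agent.W699.ELG.t_BLK | (apply Pool.Agent.W699.ELG.t_BLK <;> assumption)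
  have pOM : S_OM := by first | exact Pool.Agent.W160.ELG.t_OM | (apply Pool.Agent.W160.ELG.t_OM <;> assumption)
  have pMCE : S_MCE := by first | exact Pool.Agent.W554.ELG.t_MCE | (apply Pool.Agent.W554.ELG.t_MCE <;> assumption)
  have pMCL : S_MCL := by first | exact Pool.Agent.W637.ELG.t_MCL | (apply Pool.Agent.W637.ELG.t_MCL <;> assumption)
  have pMCD : S_MCD := by first | exact Pool.Agent.W459.ELG.t_MCD | (apply Pool.Agent.W459.ELG.t_MCD <;> assumption)
  have pA3 : S_A3 := by first | exact Pool.Agent.W61.ELG.t_A3 | (apply Pool.Agent.W61.ELG.t_A3 <;> assumption)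
  have pCSP : S_CSP := by first | exact Pool.Agent.W89.ELG.t_CSP | (apply Pool.Agent.W89.ELG.t_CSP <;> assumption)
  have pA4 : S_A4 := by first | exact Pool.Agent.W366.ELG.t_A4 | (apply Pool.Agent.W366.ELG.t_A4 <;> assumption)
  have pDEC : S_DEC := by first | exact Pool.Agent.W494.ELG.t_DEC | (apply Pool.Agent.W494.ELG.t_DEC <;> assumption)
  have pSTAR : S_STAR := by first | exact Pool.Agent.W196.ELG.t_STAR | (apply Pool.Agent.W196.ELG.t_STAR <;> assumption)
  have pADD : S_ADD := by first | exact Pool.Agent.W806.ELG.t_ADD | (apply Pool.Agent.W806.ELG.t_ADD <;> assumption)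
  have pBDIS : S_BDIS := by first | exact Pool.Agent.W125.ELG.t_BDIS | (apply Pool.Agent.W125.ELG.t_BDIS <;> assumption)
  have pCOMP : S_COMP := by first | exact Pool.Agent.W240.ELG.t_COMP | (apply Pool.Agent.W240.ELG.t_COMP <;> assumption)
  have pFIND : S_FIND := by first | exact Pool.Agent.W304.ELG.t_FIND | (apply Pool.Agent.W304.ELG.t_FIND <;> assumption)
  have pFDEC : S_FDEC := by first | exact Pool.Agent.W930.ELG.t_FDEC | (apply Pool.Agent.W930.ELG.t_FDEC <;> assumption)
  have pFUNI : S_FUNI := by first | exact Pool.Agent.W499.ELG.t_FUNI | (apply Pool.Agent.W499.ELG.t_FUNI <;> assumption)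
  have pELI : S_ELI := by first | exact Pool.Agent.W605.ELG.t_ELI | (apply Pool.Agent.W605.ELG.t_ELI <;> assumption)
  have pF5 : S_F5 := by first | exact Pool.Agent.W917.ELG.t_F5 | (apply Pool.Agent.W917.ELG.t_F5 <;> assumption)
  have pNG : S_NG := by first | exact Pool.Agent.W284.ELG.t_NG | (apply Pool.Agent.W284.ELG.t_NG <;> assumption)
  have pBEV : S_BEV := by first | exact Pool.Agent.W509.ELG.t_BEV | (apply Pool.Agent.W509.ELG.t_BEV <;> assumption)
  have pC1A : S_C1A := by first | exact Pool.Agent.W403.ELG.t_C1A | (apply Pool.Agent.W403.ELG.t_C1A <;> assumption)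
  have pC1B : S_C1B := by first | exact Pool.Agent.W724.ELG.t_C1B | (apply Pool.Agent.W724.ELG.t_C1B <;> assumption)
  have pC2 : S_C2 := by first | exact Pool.Agent.W638.ELG.t_C2 | (apply Pool.Agent.W638.ELG.t_C2 <;> assumption)
  have pFWF : S_FWF := by first | exact Pool.Agent.W853.ELG.t_FWF | (apply Pool.Agent.W853.ELG.t_FWF <;> assumption)
  have pCB1 : S_CB1 := by first | exact Pool.Agent.W15.ELG.t_CB1 | (apply Pool.Agent.W15.ELG.t_CB1 <;> assumption)
  have pL2 : S_L2 := by first | exact Pool.Agent.W91.ELG.t_L2 | (apply Pool.Agent.W91.ELG.t_L2 <;> assumption)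
  have pMD : S_MD := by first | exact Pool.Agent.W750.ELG.t_MD | (apply Pool.Agent.W750.ELG.t_MD <;> assumption)
  have pNGC : S_NGC := by first | exact Pool.Agent.W800.ELG.t_NGC | (apply Pool.Agent.W800.ELG.t_NGC <;> assumption)
  have pHH : S_HH := by first | exact Pool.Agent.W585.ELG.t_HH | (apply Pool.Agent.W585.ELG.t_HH <;> assumption)
  have pEXC : S_EXC := by first | exact Pool.Agent.W290.ELG.t_EXC | (apply Pool.Agent.W290.ELG.t_EXC <;> assumption)
  have pB1B : S_B1B := by first | exact Pool.Agent.W378.ELG.t_B1B | (apply Pool.Agent.W378.ELG.t_B1B <;> assumption)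
  have pB1H : S_B1H := by first | exact Pool.Agent.W800.ELG.t_B1H | (apply Pool.Agent.W800.ELG.t_B1H <;> assumption)
  have pB1A : S_B1A := by first | exact Pool.Agent.W392.ELG.t_B1A | (apply Pool.Agent.W392.ELG.t_B1A <;> assumption)
  have pB1P : S_B1P := by first | exact Pool.Agent.W793.ELG.t_B1P | (apply Pool.Agent.W793.ELG.t_B1P <;> assumption)
  have pB1N : S_B1N := by first | exact Pool.Agent.W303.ELG.t_B1N | (apply Pool.Agent.W303.ELG.t_B1N <;> assumption)
  have pB1R : S_B1R := by first | exact Pool.Agent.W816.ELG.t_B1R | (apply Pool.Agent.W816.ELG.t_B1R <;> assumption)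
  have pB1S : S_B1S := by first | exact Pool.Agent.W67.ELG.t_B1S | (apply Pool.Agent.W67.ELG.t_B1S <;> assumption)
  have pB2 : S_B2 := by first | exact Pool.Agent.W804.ELG.t_B2 | (apply Pool.Agent.W804.ELG.t_B2 <;> assumption)
  have pTWO : S_TWO := by first | exact Pool.Agent.W509.ELG.t_TWO | (apply Pool.Agent.W509.ELG.t_TWO <;> assumption)
  have pB3E : S_B3E := by first | exact Pool.Agent.W461.ELG.t_B3E | (apply Pool.Agent.W461.ELG.t_B3E <;> assumption)
  have pB3S : S_B3S := by first | exact Pool.Agent.W858.ELG.t_B3S | (apply Pool.Agent.W858.ELG.t_B3S <;> assumption)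
  have pNGF : S_NGF := by first | exact Pool.Agent.W919.ELG.t_NGF | (apply Pool.Agent.W919.ELG.t_NGF <;> assumption)
  have pAGI : S_AGI := by first | exact Pool.Agent.W168.ELG.t_AGI | (apply Pool.Agent.W168.ELG.t_AGI <;> assumption)
  have pAGB : S_AGB := by first | exact Pool.Agent.W358.ELG.t_AGB | (apply Pool.Agent.W358.ELG.t_AGB <;> assumption)
  have pAGP : S_AGP := by first | exact Pool.Agent.W826.ELG.t_AGP | (apply Pool.Agent.W826.ELG.t_AGP <;> assumption)
  have pAG1 : S_AG1 := by first | exact Pool.Agent.W563.ELG.t_AG1 | (apply Pool.Agent.W563.ELG.t_AG1 <;> assumption)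
  have pAG2 : S_AG2 := by first | exact Pool.Agent.W826.ELG.t_AG2 | (apply Pool.Agent.W826.ELG.t_AG2 <;> assumption)
  have pAG3 : S_AG3 := by first | exact Pool.Agent.W509.ELG.t_AG3 | (apply Pool.Agent.W509.ELG.t_AG3 <;> assumption)
  have pCBF : S_CBF := by first | exact Pool.Agent.W622.ETG.t_CBF | (apply Pool.Agent.W622.ETG.t_CBF <;> assumption)
  have pN3 : S_N3 := by first | exact Pool.Agent.W140.ELG.t_N3 | (apply Pool.Agent.W140.ELG.t_N3 <;> assumption)
  have pMCF : S_MCF := by first | exact Pool.Agent.W622.ETG.t_MCF | (apply Pool.Agent.W622.ETG.t_MCF <;> assumption)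
  have pQUO : S_QUO := by first | exact Pool.Agent.W376.ELG.t_QUO | (apply Pool.Agent.W376.ELG.t_QUO <;> assumption)
  have pCORE : S_CORE := by first | exact Pool.Agent.W622.ETG.t_CORE | (apply Pool.Agent.W622.ETG.t_CORE <;> assumption)
  have pBRI : S_BRI := by first | exact Pool.Agent.W465.ELG.t_BRI | (apply Pool.Agent.W465.ELG.t_BRI <;> assumption)
  have pBRO : S_BRO := by first | exact Pool.Agent.W764.ELG.t_BRO | (apply Pool.Agent.W764.ELG.t_BRO <;> assumption)
  have pCONV : S_CONV := by first | exact Pool.Agent.W382.ELG.t_CONV | (apply Pool.Agent.W382.ELG.t_CONV <;> assumption)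
  exact ⟨pCORE, pPL, pBRO, pCONV⟩

end Pool.Agent.W622.ETG
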